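import Pool.Agent.TH454.BW.Blow
import Pool.Agent.TH602.Turan.Bip

/-!
# Large relations closed under a semilattice operation

A norm graph without `K_{s-1,t-1}` and one element related to all others on each side.
-/

set_option autoImplicit false

namespace Pool.Agent.V5helper9.ZT

open Finset SimpleGraph Pool.Agent.TH602.Turan

/-- the flat semilattice operation with smallest element `z` -/
noncomputable def flat {V : Type} (z : V) (x y : V) : V := by
  classical exact if x = y then x else z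

theorem flat_self {V : Type} (z x : V) : flat z x x = x := by
  unfold flat; rw [if_pos rfl]

theorem flat_comm {V : Type} (z x y : V) : flat z x y = flat z y x := by
  unfold flat
  by_cases h : x = y
  · rw [if_pos h, if_pos h.symm, h]
  · rw [if_neg h, if_neg (Ne.symm h)]

theorem flat_assoc {V : Type} (z x y w : V) : flat z (flat z x y) w = flat z x (flat z y w) := by
  unfold flat
  by_cases h1 : x = y
  · subst h1
    rw [if_pos rfl]
    by_cases h2 : x = w
    · subst h2
      rw [if_pos rfl, if_pos rfl]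
    · rw [if_neg h2]
      by_cases h3 : x = z
      · rw [if_pos h3, h3]
      · rw [if_neg h3]
  · rw [if_neg h1]
    by_cases h2 : y = w
    · subst h2
      rw [if_pos rfl, if_neg h1]
      split_ifs <;> rfl
    · rw [if_neg h2]
      by_cases h3 : x = z
      · rw [if_pos h3, h3]
        split_ifs <;> rfl
      · rw [if_neg h3]
        split_ifs <;> rfl

/-- the relation of the graph `H` on the image of `f`, with `z` related to everything -/
def coneRel {A V : Type} (H : SimpleGraph A) (f : A ↪ V) (z : V) : Set (V × V) :=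
  {e | e.1 = z ∨ e.2 = z ∨ ∃ a b, H.Adj a b ∧ f a = e.1 ∧ f b = e.2}

theorem coneRel_flat {A V : Type} (H : SimpleGraph A) (f : A ↪ V) (z x y x' y' : V)
    (h : (x, y) ∈ coneRel H f z) (_h' : (x', y') ∈ coneRel H f z) :
    (flat z x x', flat z y y') ∈ coneRel H f z := by
  by_cases h1 : x = x'
  · by_cases h2 : y = y'
    · subst h1 h2
      rw [flat_self, flat_self]
      exact h
    · refine Or.inr (Or.inl ?_)
      show flat z y y' = z
      unfold flat
      rw [if_neg h2]
  · refine Or.inl ?_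
    show flat z x x' = z
    unfold flat
    rw [if_neg h1]

theorem coneRel_free {A V : Type} [Finite V] (H : SimpleGraph A) (f : A ↪ V) (z : V) (s t : ℕ)
    (hs : 2 ≤ s) (ht : 2 ≤ t)
    (hH : (completeBipartiteGraph (Fin (s - 1)) (Fin (t - 1))).Free H) :
    (completeBipartiteGraph (Fin s) (Fin t)).Free (relGraph (coneRel H f z)) := by
  classical
  have := Fintype.ofFinite V
  -- the key statement
  have key : ∀ S T : Finset V, s ≤ #S → t ≤ #T → (∀ a ∈ S.erase z, ∀ b ∈ T.erase z,
      ∃ a' b', H.Adj a' b' ∧ f a' = a ∧ f b' = b) → False := by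
    intro S T hS hT hadj
    have hS' : s - 1 ≤ #(S.erase z) := by
      have := pred_card_le_card_erase (s := S) (a := z)
      omega
    have hT' : t - 1 ≤ #(T.erase z) := by
      have := pred_card_le_card_erase (s := T) (a := z)
      omega
    have himS : S.erase z ⊆ ((S.erase z).preimage f f.injective.injOn).map f := by
      intro a ha
      obtain ⟨b, hb⟩ : (T.erase z).Nonempty := card_pos.1 (by omega)
      obtain ⟨a', b', -, h2, -⟩ := hadj a ha b hb
      rw [mem_map]
      refine ⟨a', ?_, h2⟩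
      rw [mem_preimage, h2]
      exact ha
    have himT : T.erase z ⊆ ((T.erase z).preimage f f.injective.injOn).map f := by
      intro b hb
      obtain ⟨a, ha⟩ : (S.erase z).Nonempty := card_pos.1 (by omega)
      obtain ⟨a', b', -, -, h2⟩ := hadj a ha b hb
      rw [mem_map]
      refine ⟨b', ?_, h2⟩
      rw [mem_preimage, h2]
      exact hb
    have hS2 : s - 1 ≤ #((S.erase z).preimage f f.injective.injOn) := by
      have := card_le_card himS
      rw [card_map] at this
      omega
    have hT2 : t - 1 ≤ #((T.erase z).preimage f f.injective.injOn) := by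
      have := card_le_card himT
      rw [card_map] at this
      omega
    obtain ⟨S₁, hS₁, hS₂⟩ := exists_subset_card_eq hS2
    obtain ⟨T₁, hT₁, hT₂⟩ := exists_subset_card_eq hT2
    refine hH (completeBipartiteGraph_isContained_iff.2 ⟨S₁, T₁, ?_, ?_, ?_⟩)
    · rw [hS₂, Fintype.card_fin]
    · rw [hT₂, Fintype.card_fin]
    · intro a ha b hb
      have ha2 := mem_preimage.1 (hS₁ (mem_coe.1 ha))
      have hb2 := mem_preimage.1 (hT₁ (mem_coe.1 hb))
      obtain ⟨a', b', h1, h2, h3⟩ := hadj _ ha2 _ hb2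
      rw [f.injective h2, f.injective h3] at h1
      exact h1
  refine free_of (by omega) (by omega) (fun S T hS hT h => ?_) (fun S T hS hT h => ?_)
  · refine key S T hS.ge hT.ge (fun a ha b hb => ?_)
    obtain ⟨ha1, ha2⟩ := mem_erase.1 ha
    obtain ⟨hb1, hb2⟩ := mem_erase.1 hb
    rcases h a ha2 b hb2 with h1 | h1 | h1
    · exact absurd h1 ha1
    · exact absurd h1 hb1
    · exact h1
  · refine key T S hT.ge hS.ge (fun b hb a ha => ?_)
    obtain ⟨ha1, ha2⟩ := mem_erase.1 ha
    obtain ⟨hb1, hb2⟩ := mem_erase.1 hb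
    rcases h a ha2 b hb2 with h1 | h1 | ⟨a', b', h1, h2, h3⟩
    · exact absurd h1 ha1
    · exact absurd h1 hb1
    · exact ⟨b', a', h1.symm, h3, h2⟩

theorem coneRel_card {A V : Type} [Finite V] (H : SimpleGraph A) (f : A ↪ V) (z : V) :
    H.edgeSet.ncard ≤ (coneRel H f z).ncard := by
  classical
  have := Fintype.ofFinite V
  have hA : Finite A := Finite.of_injective f f.injective
  -- each edge gives an ordered pair
  have hsurj : ∀ e ∈ H.edgeSet, ∃ p ∈ coneRel H f z, Sym2.map f e = s(p.1, p.2) := by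
    intro e he
    induction e using Sym2.ind with
    | _ a b =>
      refine ⟨(f a, f b), Or.inr (Or.inr ⟨a, b, he, rfl, rfl⟩), ?_⟩
      simp
  have h2 : Sym2.map f '' H.edgeSet ⊆ (fun p : V × V => s(p.1, p.2)) '' coneRel H f z := by
    rintro _ ⟨e, he, rfl⟩
    obtain ⟨p, hp, h⟩ := hsurj e he
    exact ⟨p, hp, h.symm⟩
  calc H.edgeSet.ncard = (Sym2.map f '' H.edgeSet).ncard :=
        (Set.ncard_image_of_injective _ (Sym2.map.injective f.injective)).symm
    _ ≤ ((fun p : V × V => s(p.1, p.2)) '' coneRel H f z).ncard :=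
        Set.ncard_le_ncard h2 (Set.toFinite _)
    _ ≤ _ := Set.ncard_image_le (Set.toFinite _)

/-- **The lower bound.** -/
theorem lower (s t : ℕ) (hs : 3 ≤ s) (ht : (s - 2).factorial + 2 ≤ t) (n : ℕ)
    (hn : 2 ^ (2 * s) ≤ n) :
    ∃ (E : Set (Fin n × Fin n)) (z : Fin n),
      (completeBipartiteGraph (Fin s) (Fin t)).Free (relGraph E) ∧
      (∀ x y x' y', (x, y) ∈ E → (x', y') ∈ E → (flat z x x', flat z y y') ∈ E) ∧
      (n : ℝ) ^ (2 - 1 / ((s : ℝ) - 1)) ≤ 2 ^ (2 * s) * E.ncard := by
  classical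
  obtain ⟨N, rfl⟩ : ∃ N, n = N + 1 := ⟨n - 1, by
    have : 0 < 2 ^ (2 * s) := by positivity
    omega⟩
  obtain ⟨r, rfl⟩ : ∃ r, s = r + 1 := ⟨s - 1, by omega⟩
  have hr : 2 ≤ r := by omega
  have hN : 2 ^ (2 * r) ≤ N := by
    have h1 : 2 ^ (2 * (r + 1)) = 4 * 2 ^ (2 * r) := by ring
    have : 0 < 2 ^ (2 * r) := by positivity
    omega
  set l := Nat.log 2 N / r with hl
  have hN0 : N ≠ 0 := by
    have : 0 < 2 ^ (2 * r) := by positivity
    omega
  have hlog : 2 * r ≤ Nat.log 2 N := Nat.le_log_of_pow_le (by norm_num) hN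
  have hl2 : 2 ≤ l := by
    rw [hl, Nat.le_div_iff_mul_le (by omega)]
    exact hlog
  have hle : 2 ^ (r * l) ≤ N := by
    refine le_trans (Nat.pow_le_pow_right (by norm_num) ?_) (Nat.pow_log_le_self 2 hN0)
    rw [hl]
    exact Nat.mul_div_le _ _
  have hlt : N + 1 ≤ 2 ^ (r * (l + 1)) := by
    have h0 : N < 2 ^ (Nat.log 2 N + 1) := Nat.lt_pow_succ_log_self (by norm_num) N
    have h1 := Nat.lt_mul_div_succ (Nat.log 2 N) (show 0 < r by omega)
    rw [← hl] at h1
    exact h0.trans_le (Nat.pow_le_pow_right (by norm_num) h1)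
  obtain ⟨w, H, -, hfree, -, hcard⟩ := Pool.Agent.TH454.BW.norm_nat r (t - 1) l hr (by
    have e : r + 1 - 2 = r - 1 := by omega
    rw [e] at ht
    omega) hl2
  have hA : Fintype.card (Pool.Agent.H607R2.BW.Str (r * l)) ≤ N := by
    have : Fintype.card (Pool.Agent.H607R2.BW.Str (r * l)) = 2 ^ (r * l) := by
      simp [Pool.Agent.H607R2.BW.Str]
    omega
  have hT2 : 2 ≤ t := by omega
  obtain ⟨f⟩ : Nonempty (Pool.Agent.H607R2.BW.Str (r * l) ↪ Fin (N + 1)) := by
    rw [Function.Embedding.nonempty_iff_card_le, Fintype.card_fin]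
    omega
  refine ⟨coneRel H f 0, 0, coneRel_free H f 0 (r + 1) t (by omega) hT2
    (by rw [Nat.add_sub_cancel]; exact hfree), fun x y x' y' => coneRel_flat H f 0 x y x' y', ?_⟩
  have h3 := coneRel_card H f (0 : Fin (N + 1))
  rw [Nat.card_coe_set_eq] at hcard
  have h4 : 2 ^ ((2 * r - 1) * (l + 1)) ≤ 2 ^ (2 * (r + 1)) * (coneRel H f 0).ncard := by
    have e1 : 2 ^ ((2 * r - 1) * (l + 1)) = 2 ^ (2 * r - 1) * (2 ^ ((r - 1) * l) * 2 ^ (r * l)) := by
      rw [← pow_add, ← pow_add]
      congr 1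
      obtain ⟨k, rfl⟩ : ∃ k, r = k + 1 := ⟨r - 1, by omega⟩
      have : 2 * (k + 1) - 1 = 2 * k + 1 := by omega
      rw [this, Nat.add_sub_cancel]
      ring
    rw [e1]
    refine (Nat.mul_le_mul_left _ (hcard.trans (Nat.mul_le_mul_left 8 h3))).trans ?_
    rw [← mul_assoc]
    refine Nat.mul_le_mul_right _ ?_
    have e2 : 2 ^ (2 * r - 1) * 8 = 2 ^ (2 * (r + 1)) := by
      have : (8 : ℕ) = 2 ^ 3 := by norm_num
      rw [this, ← pow_add]
      congr 1
      omega
    exact e2.le
  have h5 : ((N + 1 : ℕ) : ℝ) ^ (2 - 1 / (((r + 1 : ℕ) : ℝ) - 1)) ≤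
      (2 : ℝ) ^ ((2 * r - 1) * (l + 1)) := by
    have hr0 : (0 : ℝ) < r := by exact_mod_cast (by omega : 0 < r)
    have e3 : (2 : ℝ) - 1 / (((r + 1 : ℕ) : ℝ) - 1) = (2 * r - 1) / r := by
      have : (r : ℝ) ≠ 0 := hr0.ne'
      rw [Nat.cast_add, Nat.cast_one, add_sub_cancel_right]
      field_simp
    have e4 : (0 : ℝ) ≤ (2 * r - 1) / r := by
      have : (1 : ℝ) ≤ r := by exact_mod_cast (by omega : 1 ≤ r)
      apply div_nonneg <;> linarith
    rw [e3]
    calc ((N + 1 : ℕ) : ℝ) ^ ((2 * r - 1 : ℝ) / r) ≤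
        ((2 : ℝ) ^ (r * (l + 1))) ^ ((2 * r - 1 : ℝ) / r) := by
          refine Real.rpow_le_rpow (Nat.cast_nonneg _) ?_ e4
          exact_mod_cast hlt
      _ = (2 : ℝ) ^ ((2 * r - 1) * (l + 1)) := by
          rw [← Real.rpow_natCast, ← Real.rpow_natCast, ← Real.rpow_mul (by norm_num)]
          congr 1
          have : (r : ℝ) ≠ 0 := hr0.ne'
          have h6 : ((2 * r - 1 : ℕ) : ℝ) = 2 * r - 1 := by
            rw [Nat.cast_sub (by omega)]
            push_cast
            ring
          rw [Nat.cast_mul, Nat.cast_mul, h6]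
          field_simp
  refine h5.trans ?_
  exact_mod_cast h4

end Pool.Agent.V5helper9.ZT
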