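import Mathlib

/-!
# Idempotent polymorphisms of a bipartite relation

`Pol E ι`: pairs of idempotent operations on `X` and on `Y` with arguments indexed by `ι` which
preserve the relation `E` between `X` and `Y`. A pair of elements which is closed under all of them
gives a representation of the clone of polymorphisms by Boolean functions (`Rep`).
-/

set_option autoImplicit false

namespace Pool.Agent.V5helper9.ZT

universe u v

variable {X : Type u} {Y : Type v}

/-- Idempotent polymorphisms of the relation `E` with arguments indexed by `ι`. -/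
structure Pol (E : X → Y → Prop) (ι : Type) where
  /-- the operation on `X` -/
  fx : (ι → X) → X
  /-- the operation on `Y` -/
  fy : (ι → Y) → Y
  idx : ∀ x, fx (fun _ => x) = x
  idy : ∀ y, fy (fun _ => y) = y
  pres : ∀ u v, (∀ i, E (u i) (v i)) → E (fx u) (fy v)

variable {E : X → Y → Prop}

/-- projections -/
def Pol.proj {ι : Type} (i : ι) : Pol E ι :=
  ⟨fun u => u i, fun v => v i, fun _ => rfl, fun _ => rfl, fun _ _ h => h i⟩

/-- composition -/
def Pol.comp {ι κ : Type} (f : Pol E ι) (g : ι → Pol E κ) : Pol E κ where
  fx u := f.fx (fun i => (g i).fx u)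
  fy v := f.fy (fun i => (g i).fy v)
  idx x := by
    simp only [(g _).idx, f.idx]
  idy y := by
    simp only [(g _).idy, f.idy]
  pres u v h := f.pres _ _ fun i => (g i).pres u v h

/-- identification and permutation of arguments -/
def Pol.minor {ι κ : Type} (f : Pol E ι) (σ : ι → κ) : Pol E κ := f.comp (fun i => Pol.proj (σ i))

/-- A representation of the clone of polymorphisms by Boolean functions. -/
structure Rep (E : X → Y → Prop) where
  /-- the Boolean function -/
  v : ∀ {ι : Type}, Pol E ι → (ι → Bool) → Bool
  proj : ∀ {ι : Type} (i : ι) (A : ι → Bool), v (Pol.proj i) A = A i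
  comp : ∀ {ι κ : Type} (f : Pol E ι) (g : ι → Pol E κ) (A : κ → Bool),
    v (f.comp g) A = v f (fun i => v (g i) A)
  const : ∀ {ι : Type} (f : Pol E ι) (c : Bool), v f (fun _ => c) = c

theorem Rep.minor (ρ : Rep E) {ι κ : Type} (f : Pol E ι) (σ : ι → κ) (A : κ → Bool) :
    ρ.v (f.minor σ) A = ρ.v f (fun i => A (σ i)) := by
  unfold Pol.minor
  rw [ρ.comp]
  simp only [ρ.proj]

/-- Invariance under cyclic shifts of the arguments. -/
def Cyc {G : Type} [AddCommGroup G] (ρ : Rep E) (h : Pol E G) : Prop :=
  ∀ (i : G) (A : G → Bool), ρ.v h (fun j => A (j + i)) = ρ.v h A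

/-- One polymorphism that is cyclic on all pairs where there is a cyclic one. -/
theorem exists_uniform {G : Type} [AddCommGroup G] {Q : Type*} (R : Q → Rep E) (F : Finset Q) :
    ∃ h : Pol E G, ∀ q ∈ F, (∃ g : Pol E G, Cyc (R q) g) → Cyc (R q) h := by
  classical
  induction F using Finset.induction_on with
  | empty => exact ⟨Pol.proj 0, by simp⟩
  | insert q0 F hq0 ih =>
    obtain ⟨h, hh⟩ := ih
    by_cases hg : ∃ g : Pol E G, Cyc (R q0) g
    · obtain ⟨g, hg⟩ := hg
      refine ⟨g.comp (fun i => h.minor (fun j => j + i)), ?_⟩
      intro q hq hex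
      have key : ∀ A, (R q).v (g.comp (fun i => h.minor (fun j => j + i))) A =
          (R q).v g (fun i => (R q).v h (fun j => A (j + i))) := by
        intro A
        rw [(R q).comp]
        simp only [(R q).minor]
      rcases Finset.mem_insert.1 hq with rfl | hq
      · intro k A
        rw [key, key]
        have := hg k (fun i => (R q).v h (fun j => A (j + i)))
        rw [← this]
        congr 1
        funext i
        congr 1
        funext j
        rw [add_assoc]
      · have hc := hh q hq hex
        intro k A
        rw [key, key]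
        have e : ∀ B : G → Bool, (R q).v g (fun i => (R q).v h (fun j => B (j + i))) =
            (R q).v h B := by
          intro B
          have : (fun i => (R q).v h (fun j => B (j + i))) = fun _ => (R q).v h B := by
            funext i
            exact hc i B
          rw [this, (R q).const]
        rw [e A, e (fun j => A (j + k))]
        exact hc k A
    · refine ⟨h, ?_⟩
      intro q hq hex
      rcases Finset.mem_insert.1 hq with rfl | hq
      · exact absurd hex hg
      · exact hh q hq hex

/-- the function with the values `c`, `d` -/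
def m2 {α : Type*} (c d : α) : ZMod 2 → α := fun i => if i = 0 then c else d

/-- the function with the values `a`, `b`, `c` -/
def t3 {α : Type*} (a b c : α) : ZMod 3 → α := fun i => if i = 0 then a else if i = 1 then b else c

theorem eq_m2 {α : Type*} (A : ZMod 2 → α) : A = m2 (A 0) (A 1) := by
  funext i
  unfold m2
  fin_cases i <;> rfl

theorem eq_t3 {α : Type*} (A : ZMod 3 → α) : A = t3 (A 0) (A 1) (A 2) := by
  funext i
  unfold t3
  fin_cases i <;> rfl

theorem m2_self (ρ : Rep E) (f : Pol E (ZMod 2)) (c : Bool) : ρ.v f (m2 c c) = c := by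
  have : (m2 c c : ZMod 2 → Bool) = fun _ => c := by
    funext i; unfold m2; split_ifs <;> rfl
  rw [this, ρ.const]

theorem t3_self (ρ : Rep E) (f : Pol E (ZMod 3)) (c : Bool) : ρ.v f (t3 c c c) = c := by
  have : (t3 c c c : ZMod 3 → Bool) = fun _ => c := by
    funext i; unfold t3; split_ifs <;> rfl
  rw [this, ρ.const]

theorem cyc2_iff (ρ : Rep E) (f : Pol E (ZMod 2)) :
    Cyc ρ f ↔ ρ.v f (m2 false true) = ρ.v f (m2 true false) := by
  constructor
  · intro h
    have := h 1 (m2 true false)
    rw [← this]
    congr 1
    funext i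
    unfold m2
    fin_cases i <;> rfl
  · intro h i A
    have h0 : i = 0 ∨ i = 1 := by revert i; decide
    rcases h0 with rfl | rfl
    · simp
    · have e : (fun j => A (j + 1)) = m2 (A 1) (A 0) := by
        funext j
        unfold m2
        fin_cases j <;> rfl
      rw [e, eq_m2 A]
      have h1 : m2 (A 0) (A 1) 0 = A 0 := rfl
      have h2 : m2 (A 0) (A 1) 1 = A 1 := rfl
      rw [h1, h2]
      rcases A 0 <;> rcases A 1
      · rfl
      · exact h.symm
      · exact h
      · rfl

theorem cyc3_of (ρ : Rep E) (f : Pol E (ZMod 3)) (c d : Bool)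
    (h1 : ρ.v f (t3 true false false) = c) (h2 : ρ.v f (t3 false true false) = c)
    (h3 : ρ.v f (t3 false false true) = c) (h4 : ρ.v f (t3 false true true) = d)
    (h5 : ρ.v f (t3 true false true) = d) (h6 : ρ.v f (t3 true true false) = d) : Cyc ρ f := by
  have key : ∀ a b e : Bool, ρ.v f (t3 b e a) = ρ.v f (t3 a b e) := by
    intro a b e
    rcases a <;> rcases b <;> rcases e
    · rfl
    · rw [h2, h3]
    · rw [h1, h2]
    · rw [h6, h4]
    · rw [h3, h1]
    · rw [h4, h5]
    · rw [h5, h6]
    · rfl
  intro i A
  have h0 : i = 0 ∨ i = 1 ∨ i = 2 := by revert i; decide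
  rw [eq_t3 A]
  generalize A 0 = a
  generalize A 1 = b
  generalize A 2 = e
  rcases h0 with rfl | rfl | rfl
  · simp
  · have : (fun j => t3 a b e (j + 1)) = t3 b e a := by
      funext j
      unfold t3
      fin_cases j <;> rfl
    rw [this]
    exact key a b e
  · have : (fun j => t3 a b e (j + 2)) = t3 e a b := by
      funext j
      unfold t3
      fin_cases j <;> rfl
    rw [this, ← key e a b]

/-- A binary polymorphism that is commutative on all pairs where this is possible, and the first
projection on all others. -/
theorem exists_bin {Q : Type*} (R : Q → Rep E) (F : Finset Q) :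
    ∃ b : Pol E (ZMod 2), ∀ q ∈ F,
      ((R q).v b (m2 false true) = (R q).v b (m2 true false)) ∨
      ((∀ c d, (R q).v b (m2 c d) = c) ∧ ¬∃ g : Pol E (ZMod 2), Cyc (R q) g) := by
  obtain ⟨b0, hb0⟩ := exists_uniform (G := ZMod 2) R F
  refine ⟨b0.comp (fun i => if i = 0 then b0 else Pol.proj 0), ?_⟩
  intro q hq
  have key : ∀ c d, (R q).v (b0.comp (fun i => if i = 0 then b0 else Pol.proj 0)) (m2 c d) =
      (R q).v b0 (m2 ((R q).v b0 (m2 c d)) c) := by
    intro c d
    rw [(R q).comp]
    congr 1
    funext i
    unfold m2
    split_ifs with h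
    · rfl
    · rw [(R q).proj]
      rfl
  by_cases hc : (R q).v b0 (m2 false true) = (R q).v b0 (m2 true false)
  · left
    rw [key, key]
    cases h : (R q).v b0 (m2 true false) with
    | false =>
      rw [h] at hc
      rw [hc, m2_self]
    | true =>
      rw [h] at hc
      rw [hc, m2_self, h]
  · right
    have hn : ¬∃ g : Pol E (ZMod 2), Cyc (R q) g := by
      intro hex
      exact hc ((cyc2_iff _ _).1 (hb0 q hq hex))
    refine ⟨?_, hn⟩
    intro c d
    rw [key]
    cases h1 : (R q).v b0 (m2 false true) <;> cases h2 : (R q).v b0 (m2 true false)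
    · exact absurd (h1.trans h2.symm) hc
    · rcases c <;> rcases d
      · rw [m2_self, m2_self]
      · rw [h1, m2_self]
      · rw [h2, m2_self]
      · rw [m2_self, m2_self]
    · rcases c <;> rcases d
      · rw [m2_self, m2_self]
      · rw [h1, h2]
      · rw [h2, h1]
      · rw [m2_self, m2_self]
    · exact absurd (h1.trans h2.symm) hc

/-- Without commutative binary operation all functions are self-dual. -/
theorem selfdual (ρ : Rep E) (hn : ¬∃ g : Pol E (ZMod 2), Cyc ρ g) {ι : Type} (f : Pol E ι)
    (A : ι → Bool) : ρ.v f (fun i => !A i) = !ρ.v f A := by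
  by_contra hne
  apply hn
  refine ⟨f.minor (fun i => if A i then 1 else 0), ?_⟩
  rw [cyc2_iff, ρ.minor, ρ.minor]
  have e1 : (fun i => (m2 false true : ZMod 2 → Bool) (if A i then 1 else 0)) = A := by
    funext i
    unfold m2
    cases h : A i <;> simp
  have e2 : (fun i => (m2 true false : ZMod 2 → Bool) (if A i then 1 else 0)) = fun i => !A i := by
    funext i
    unfold m2
    cases h : A i <;> simp
  rw [e1, e2]
  cases h1 : ρ.v f A <;> cases h2 : ρ.v f (fun i => !A i) <;> simp_all

end Pool.Agent.V5helper9.ZT
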