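import Pool.Agent.V5helper9.ZT.Count

/-!
# The combinatorial core
-/

set_option autoImplicit false

namespace Pool.Agent.V5helper9.ZT

open Finset
open scoped Classical

theorem powmean {I : Type*} [Fintype I] (f : I → ℕ) (n : ℕ) :
    (∑ i, f i) ^ (n + 1) ≤ Fintype.card I ^ n * ∑ i, f i ^ (n + 1) := by
  rcases Nat.eq_zero_or_pos (Fintype.card I) with h | h
  · have : IsEmpty I := Fintype.card_eq_zero_iff.1 h
    simp
  · have h1 := pow_sum_div_card_le_sum_pow (s := (Finset.univ : Finset I))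
      (f := fun i => (f i : ℝ)) (fun i _ => Nat.cast_nonneg _) n
    rw [Finset.card_univ, div_le_iff₀ (by positivity)] at h1
    have h2 : ((∑ i, f i : ℕ) : ℝ) ^ (n + 1) ≤
        ((Fintype.card I ^ n * ∑ i, f i ^ (n + 1) : ℕ) : ℝ) := by
      push_cast
      rw [mul_comm]
      exact h1
    exact_mod_cast h2

theorem pairs_le {U : Type*} (B : Finset U) (D M P : U → U → Prop) (t : ℕ)
    (hP : ∀ u v, P u v → D u v ∨ D v u ∨ M u v)
    (hD : ∀ u ∈ B, #{v ∈ B | D u v} ≤ t) (hM : ∀ u ∈ B, #{v ∈ B | M u v} ≤ t) :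
    #{z ∈ B ×ˢ B | P z.1 z.2} ≤ 3 * t * #B := by
  have key : ∀ R : U → U → Prop, (∀ u ∈ B, #{v ∈ B | R u v} ≤ t) →
      #{z ∈ B ×ˢ B | R z.1 z.2} ≤ #B * t := by
    intro R hR
    rw [Finset.card_filter, Finset.sum_product, ← smul_eq_mul]
    refine Finset.sum_le_card_nsmul _ _ _ fun u hu => ?_
    have := hR u hu
    rw [Finset.card_filter] at this
    exact this
  have key' : #{z ∈ B ×ˢ B | D z.2 z.1} ≤ #B * t := by
    rw [Finset.card_filter, Finset.sum_product_right, ← smul_eq_mul]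
    refine Finset.sum_le_card_nsmul _ _ _ fun u hu => ?_
    have := hD u hu
    rw [Finset.card_filter] at this
    exact this
  have hsub : ({z ∈ B ×ˢ B | P z.1 z.2} : Finset (U × U)) ⊆
      ({z ∈ B ×ˢ B | D z.1 z.2} ∪ {z ∈ B ×ˢ B | D z.2 z.1}) ∪ {z ∈ B ×ˢ B | M z.1 z.2} := by
    intro z hz
    simp only [mem_union, mem_filter] at hz ⊢
    have := hP _ _ hz.2
    tauto
  have h1 := card_le_card hsub
  have h2 := card_union_le ({z ∈ B ×ˢ B | D z.1 z.2} ∪ {z ∈ B ×ˢ B | D z.2 z.1})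
    {z ∈ B ×ˢ B | M z.1 z.2}
  have h3 := card_union_le {z ∈ B ×ˢ B | D z.1 z.2} {z ∈ B ×ˢ B | D z.2 z.1}
  have h4 := key D hD
  have h5 := key M hM
  have e : 3 * t * #B = #B * t + #B * t + #B * t := by ring
  omega

/-- A tuple of `q + 2` different elements and another element `e` such that all common neighbours of
the first two are neighbours of `e`. -/
def Good {W U : Type*} {q : ℕ} (E : W → U → Prop) (T : U × U × (Fin q → U)) : Prop :=
  T.1 ≠ T.2.1 ∧ Function.Injective T.2.2 ∧ (∀ j, T.2.2 j ≠ T.1 ∧ T.2.2 j ≠ T.2.1) ∧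
    ∃ e, e ≠ T.1 ∧ e ≠ T.2.1 ∧ (∀ j, T.2.2 j ≠ e) ∧ ∀ x, E x T.1 → E x T.2.1 → E x e

/-- all elements of the tuple are related to `y` -/
def Adj {X Y : Type*} {q : ℕ} (E : X → Y → Prop) (S : X × X × (Fin q → X)) (y : Y) : Prop :=
  E S.1 y ∧ E S.2.1 y ∧ ∀ j, E (S.2.2 j) y

/-- the elements of a tuple together with another one -/
theorem card_tuple {U : Type*} {q : ℕ} (T : U × U × (Fin q → U)) (e : U) (h1 : T.1 ≠ T.2.1)
    (h2 : Function.Injective T.2.2) (h3 : ∀ j, T.2.2 j ≠ T.1 ∧ T.2.2 j ≠ T.2.1)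
    (h4 : e ≠ T.1) (h5 : e ≠ T.2.1) (h6 : ∀ j, T.2.2 j ≠ e) :
    #(insert e (insert T.1 (insert T.2.1 (univ.image T.2.2)))) = q + 3 := by
  have a1 : #(univ.image T.2.2) = q := by
    rw [card_image_of_injective _ h2, card_univ, Fintype.card_fin]
  have a2 : T.2.1 ∉ univ.image T.2.2 := by
    simp only [mem_image, mem_univ, true_and, not_exists]
    exact fun j => (h3 j).2
  have a3 : T.1 ∉ insert T.2.1 (univ.image T.2.2) := by
    simp only [mem_insert, mem_image, mem_univ, true_and, not_or, not_exists]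
    exact ⟨h1, fun j => (h3 j).1⟩
  have a4 : e ∉ insert T.1 (insert T.2.1 (univ.image T.2.2)) := by
    simp only [mem_insert, mem_image, mem_univ, true_and, not_or, not_exists]
    exact ⟨h4, h5, h6⟩
  rw [card_insert_of_notMem a4, card_insert_of_notMem a3, card_insert_of_notMem a2, a1]

theorem good_card {W U : Type*} [Fintype W] {q t : ℕ} (E : W → U → Prop)
    (hf : ∀ (S : Finset W) (T : Finset U), t ≤ #S → q + 3 ≤ #T → ¬∀ x ∈ S, ∀ y ∈ T, E x y)
    (T : U × U × (Fin q → U)) (hT : Good E T) :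
    #{x | E x T.1 ∧ E x T.2.1 ∧ ∀ j, E x (T.2.2 j)} < t := by
  obtain ⟨h1, h2, h3, e, h4, h5, h6, h7⟩ := hT
  by_contra hlt
  rw [not_lt] at hlt
  refine hf _ (insert e (insert T.1 (insert T.2.1 (univ.image T.2.2)))) hlt
    (card_tuple T e h1 h2 h3 h4 h5 h6).ge ?_
  intro x hx y hy
  simp only [mem_filter, mem_univ, true_and] at hx
  simp only [mem_insert, mem_image, mem_univ, true_and] at hy
  rcases hy with rfl | rfl | rfl | ⟨j, rfl⟩
  · exact h7 x hx.1 hx.2.1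
  · exact hx.1
  · exact hx.2.1
  · exact hx.2.2 j

section

variable {X Y : Type*} [Fintype X] [Fintype Y] (E : X → Y → Prop) (q t : ℕ)

/-- First part: the pairs `(x, y)` with many `y'` with `DY y y'`. -/
theorem boundR (DX MX : X → X → Prop) (DY : Y → Y → Prop) (ht : q + 3 ≤ t)
    (hf1 : ∀ (S : Finset X) (T : Finset Y), q + 3 ≤ #S → t ≤ #T → ¬∀ x ∈ S, ∀ y ∈ T, E x y)
    (HX : ∀ a b : X, a ≠ b → DX a b ∨ DX b a ∨ MX a b ∨
        ∃ c, c ≠ a ∧ c ≠ b ∧ ∀ y, E a y → E b y → E c y)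
    (F2 : ∀ x y x' y', E x y → E x' y → E x y' → (DX x x' ∨ MX x x') → DY y y' → E x' y') :
    ∑ y, #{x | E x y ∧ t ≤ #{y' | E x y' ∧ DY y y'}} ^ (q + 2) ≤
      (2 * (3 * t + 1) + 2 * (q + 2)) ^ (q + 2) * Fintype.card Y +
        2 ^ (q + 1) * (t * Fintype.card X ^ (q + 2)) := by
  have hone : ∀ (R : X → X → Prop), (∀ x x', R x x' → DX x x' ∨ MX x x') → ∀ y,
      ∀ u ∈ ({x | E x y ∧ t ≤ #{y' | E x y' ∧ DY y y'}} : Finset X),
      #{v ∈ ({x | E x y ∧ t ≤ #{y' | E x y' ∧ DY y y'}} : Finset X) | R u v} ≤ t := by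
    intro R hR y u hu
    by_contra hlt
    rw [not_le] at hlt
    simp only [mem_filter, mem_univ, true_and] at hu
    refine hf1 _ _ (ht.trans hlt.le) hu.2 ?_
    intro x' hx' y' hy'
    simp only [mem_filter, mem_univ, true_and] at hx' hy'
    exact F2 u y x' y' hu.1 hx'.1.1 hy'.1 (hR _ _ hx'.2) hy'.2
  refine lemA q (3 * t) t (fun y => ({x | E x y ∧ t ≤ #{y' | E x y' ∧ DY y y'}} : Finset X))
    (fun u v => DX u v ∨ DX v u ∨ MX u v) (Good fun y x => E x y) ?_ ?_ ?_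
  · intro y
    exact pairs_le _ DX MX _ t (fun u v h => h) (hone DX (fun _ _ h => Or.inl h) y)
      (hone MX (fun _ _ h => Or.inr h) y)
  · intro y u _ v _ huv hP
    rcases HX u v huv with h | h | h | ⟨c, hc1, hc2, hc3⟩
    · exact absurd (Or.inl h) hP
    · exact absurd (Or.inr (Or.inl h)) hP
    · exact absurd (Or.inr (Or.inr h)) hP
    · exact ⟨c, fun w hw hw' => ⟨huv, hw, fun j => ⟨(hw' j).2.1, (hw' j).2.2.1⟩, c, hc1, hc2,
        fun j => (hw' j).2.2.2, hc3⟩⟩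
  · intro T hT
    have h1 := good_card (W := Y) (U := X) (fun y x => E x y) (t := t)
      (fun S T hS hT h => hf1 T S hT hS fun x hx y hy => h y hy x hx) T hT
    refine le_trans (card_le_card ?_) h1.le
    intro y hy
    simp only [mem_filter, mem_univ, true_and] at hy ⊢
    exact ⟨hy.1.1, hy.2.1.1, fun j => (hy.2.2 j).1⟩

/-- Second part: the sets of `y` whose majority partners among the common neighbours of a tuple are
few. -/
theorem boundS (E0 : X → Y → Prop) (DY MY : Y → Y → Prop)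
    (hf2 : ∀ (S : Finset X) (T : Finset Y), t ≤ #S → q + 3 ≤ #T → ¬∀ x ∈ S, ∀ y ∈ T, E x y)
    (HY : ∀ a b : Y, a ≠ b → DY a b ∨ DY b a ∨ MY a b ∨
        ∃ c, c ≠ a ∧ c ≠ b ∧ ∀ x, E x a → E x b → E x c)
    (h0 : ∀ x y, E0 x y → E x y) (h0' : ∀ x y, E0 x y → #{y' | E x y' ∧ DY y y'} < t)
    (J : X × X × (Fin q → X) → Prop) :
    ∑ S : X × X × (Fin q → X), #{y | J S ∧ Adj E0 S y ∧
      #{y' | Adj E0 S y' ∧ MY y y'} < t} ^ (q + 2) ≤
      (2 * (3 * t + 1) + 2 * (q + 2)) ^ (q + 2) * Fintype.card X ^ (q + 2) +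
        2 ^ (q + 1) * (t ^ (q + 2) * Fintype.card Y ^ (q + 2)) := by
  have hcard : Fintype.card (X × X × (Fin q → X)) = Fintype.card X ^ (q + 2) := by
    rw [Fintype.card_prod, Fintype.card_prod, Fintype.card_fun, Fintype.card_fin]
    ring
  rw [← hcard]
  refine lemA q (3 * t) (t ^ (q + 2)) (fun S : X × X × (Fin q → X) =>
    ({y | J S ∧ Adj E0 S y ∧ #{y' | Adj E0 S y' ∧ MY y y'} < t} : Finset Y))
    (fun u v => DY u v ∨ DY v u ∨ MY u v) (Good E) ?_ ?_ ?_
  · intro S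
    refine pairs_le _ DY MY _ t (fun u v h => h) ?_ ?_
    · intro u hu
      simp only [mem_filter, mem_univ, true_and] at hu
      refine le_trans (card_le_card ?_) (h0' S.1 u hu.2.1.1).le
      intro v hv
      simp only [mem_filter, mem_univ, true_and] at hv ⊢
      exact ⟨h0 _ _ hv.1.2.1.1, hv.2⟩
    · intro u hu
      simp only [mem_filter, mem_univ, true_and] at hu
      refine le_trans (card_le_card ?_) hu.2.2.le
      intro v hv
      simp only [mem_filter, mem_univ, true_and] at hv ⊢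
      exact ⟨hv.1.2.1, hv.2⟩
  · intro y u _ v _ huv hP
    rcases HY u v huv with h | h | h | ⟨c, hc1, hc2, hc3⟩
    · exact absurd (Or.inl h) hP
    · exact absurd (Or.inr (Or.inl h)) hP
    · exact absurd (Or.inr (Or.inr h)) hP
    · exact ⟨c, fun w hw hw' => ⟨huv, hw, fun j => ⟨(hw' j).2.1, (hw' j).2.2.1⟩, c, hc1, hc2,
        fun j => (hw' j).2.2.2, hc3⟩⟩
  · intro T hT
    have h1 := good_card E (t := t) hf2 T hT
    set N : Finset X := {x | E x T.1 ∧ E x T.2.1 ∧ ∀ j, E x (T.2.2 j)} with hN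
    have h2 : #(N ×ˢ (N ×ˢ Fintype.piFinset (fun _ : Fin q => N))) ≤ t ^ (q + 2) := by
      rw [card_product, card_product, Fintype.card_piFinset_const]
      calc #N * (#N * #N ^ q) = #N ^ (q + 2) := by ring
        _ ≤ t ^ (q + 2) := Nat.pow_le_pow_left h1.le _
    refine le_trans (card_le_card ?_) h2
    intro S hS
    simp only [mem_filter, mem_univ, true_and] at hS
    obtain ⟨⟨-, a1, -⟩, ⟨-, a2, -⟩, a3⟩ := hS
    simp only [mem_product, Fintype.mem_piFinset, hN, mem_filter, mem_univ, true_and]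
    exact ⟨⟨h0 _ _ a1.1, h0 _ _ a2.1, fun j => h0 _ _ (a3 j).2.1.1⟩,
      ⟨h0 _ _ a1.2.1, h0 _ _ a2.2.1, fun j => h0 _ _ (a3 j).2.1.2.1⟩,
      fun i => ⟨h0 _ _ (a1.2.2 i), h0 _ _ (a2.2.2 i), fun j => h0 _ _ ((a3 j).2.1.2.2 i)⟩⟩

end

end Pool.Agent.V5helper9.ZT
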