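import Mathlib

/-!
# Counting lemmas
-/

set_option autoImplicit false

namespace Pool.Agent.V5helper9.ZT

open Finset
open scoped Classical

/-- The number of injective functions into a set. -/
theorem card_inj {U κ : Type*} [Fintype κ] [DecidableEq κ] [Fintype U] (A : Finset U) :
    (#A + 1 - Fintype.card κ) ^ Fintype.card κ ≤
      #{w : κ → U | Function.Injective w ∧ ∀ i, w i ∈ A} := by
  have h1 : (#A + 1 - Fintype.card κ) ^ Fintype.card κ ≤ Fintype.card (κ ↪ A) := by
    rw [Fintype.card_embedding_eq, Fintype.card_coe]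
    exact Nat.pow_sub_le_descFactorial _ _
  refine h1.trans ?_
  rw [← Finset.card_univ]
  refine Finset.card_le_card_of_injOn (fun e i => (e i : U)) ?_ ?_
  · intro e _
    simp only [coe_filter, mem_univ, true_and, Set.mem_ofPred_eq]
    exact ⟨fun i j h => e.injective (Subtype.ext h), fun i => (e i).2⟩
  · intro e _ e' _ h
    ext i
    exact congrFun h i

/-- Counting lemma. If few pairs in the sets `B i` are typed then a positive proportion of all
tuples in `B i` is good. -/
theorem lemA {I U : Type*} [Fintype I] [Fintype U] (q c M : ℕ) (B : I → Finset U)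
    (P : U → U → Prop) (Good : U × U × (Fin q → U) → Prop)
    (hP : ∀ i, #{z ∈ B i ×ˢ B i | P z.1 z.2} ≤ c * #(B i))
    (hgood : ∀ i, ∀ u ∈ B i, ∀ v ∈ B i, u ≠ v → ¬P u v → ∃ e, ∀ w : Fin q → U,
      Function.Injective w → (∀ j, w j ∈ B i ∧ w j ≠ u ∧ w j ≠ v ∧ w j ≠ e) → Good (u, v, w))
    (hM : ∀ T, Good T → #{i | T.1 ∈ B i ∧ T.2.1 ∈ B i ∧ ∀ j, T.2.2 j ∈ B i} ≤ M) :
    ∑ i, #(B i) ^ (q + 2) ≤ (2 * (c + 1) + 2 * (q + 2)) ^ (q + 2) * Fintype.card I +
      2 ^ (q + 1) * (M * Fintype.card U ^ (q + 2)) := by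
  set K := 2 * (c + 1) + 2 * (q + 2) with hK
  -- good tuples in `B i`
  have hone : ∀ i, #(B i) ^ (q + 2) ≤ K ^ (q + 2) + 2 ^ (q + 1) *
      #{T : U × U × (Fin q → U) | Good T ∧ T.1 ∈ B i ∧ T.2.1 ∈ B i ∧ ∀ j, T.2.2 j ∈ B i} := by
    intro i
    set n := #(B i) with hn
    by_cases hnK : n < K
    · exact (Nat.pow_le_pow_left hnK.le _).trans (Nat.le_add_right _ _)
    · rw [not_lt] at hnK
      refine le_trans ?_ (Nat.le_add_left _ _)
      -- untyped pairs
      have h1 : n * n ≤ #{z ∈ B i ×ˢ B i | z.1 ≠ z.2 ∧ ¬P z.1 z.2} + (c + 1) * n := by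
        have e1 : #(B i ×ˢ B i) = n * n := by rw [card_product]
        rw [← e1]
        have hsub : B i ×ˢ B i ⊆ ({z ∈ B i ×ˢ B i | z.1 ≠ z.2 ∧ ¬P z.1 z.2} ∪
            {z ∈ B i ×ˢ B i | P z.1 z.2}) ∪ (B i).image (fun u => (u, u)) := by
          rintro ⟨u, v⟩ hz
          rw [mem_product] at hz
          simp only [mem_union, mem_filter, mem_product, mem_image]
          by_cases huv : u = v
          · exact Or.inr ⟨u, hz.1, by rw [huv]⟩
          · by_cases hp : P u v
            · exact Or.inl (Or.inr ⟨hz, hp⟩)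
            · exact Or.inl (Or.inl ⟨hz, huv, hp⟩)
        refine (card_le_card hsub).trans ((card_union_le _ _).trans ?_)
        have h2 := card_union_le {z ∈ B i ×ˢ B i | z.1 ≠ z.2 ∧ ¬P z.1 z.2}
          {z ∈ B i ×ˢ B i | P z.1 z.2}
        have h3 := hP i
        rw [← hn] at h3
        have h4 : #((B i).image (fun u => (u, u))) ≤ n := card_image_le
        rw [add_mul, one_mul]
        omega
      have h2 : n * n ≤ 2 * #{z ∈ B i ×ˢ B i | z.1 ≠ z.2 ∧ ¬P z.1 z.2} := by
        have : 2 * ((c + 1) * n) ≤ n * n := by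
          rw [← mul_assoc]
          exact Nat.mul_le_mul_right _ (by omega)
        omega
      -- each untyped pair has many good extensions
      have h3 : #{z ∈ B i ×ˢ B i | z.1 ≠ z.2 ∧ ¬P z.1 z.2} * (n - (q + 2)) ^ q ≤
          #{T : U × U × (Fin q → U) | Good T ∧ T.1 ∈ B i ∧ T.2.1 ∈ B i ∧
            ∀ j, T.2.2 j ∈ B i} := by
        have hmap : ∀ T ∈ ({T : U × U × (Fin q → U) | Good T ∧ T.1 ∈ B i ∧ T.2.1 ∈ B i ∧
            (∀ j, T.2.2 j ∈ B i) ∧ T.1 ≠ T.2.1 ∧ ¬P T.1 T.2.1} :
            Finset (U × U × (Fin q → U))), (fun T : U × U × (Fin q → U) => (T.1, T.2.1)) T ∈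
            {z ∈ B i ×ˢ B i | z.1 ≠ z.2 ∧ ¬P z.1 z.2} := by
          intro T hT
          simp only [mem_filter, mem_univ, true_and, mem_product] at hT ⊢
          exact ⟨⟨hT.2.1, hT.2.2.1⟩, hT.2.2.2.2⟩
        have hcard := Finset.card_eq_sum_card_fiberwise hmap
        have hle : #{T : U × U × (Fin q → U) | Good T ∧ T.1 ∈ B i ∧ T.2.1 ∈ B i ∧
            (∀ j, T.2.2 j ∈ B i) ∧ T.1 ≠ T.2.1 ∧ ¬P T.1 T.2.1} ≤
            #{T : U × U × (Fin q → U) | Good T ∧ T.1 ∈ B i ∧ T.2.1 ∈ B i ∧
              ∀ j, T.2.2 j ∈ B i} := by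
          apply card_le_card
          intro T hT
          simp only [mem_filter, mem_univ, true_and] at hT ⊢
          exact ⟨hT.1, hT.2.1, hT.2.2.1, hT.2.2.2.1⟩
        refine le_trans ?_ hle
        rw [hcard, ← smul_eq_mul]
        apply Finset.card_nsmul_le_sum
        rintro ⟨u, v⟩ hz
        simp only [mem_filter, mem_product] at hz
        obtain ⟨⟨hu, hv⟩, huv, hp⟩ := hz
        obtain ⟨e, he⟩ := hgood i u hu v hv huv hp
        have h4 := card_inj (κ := Fin q) (((B i).erase u).erase v |>.erase e)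
        rw [Fintype.card_fin] at h4
        have h5 : n - (q + 2) ≤ #(((B i).erase u).erase v |>.erase e) + 1 - q := by
          have a1 := pred_card_le_card_erase (s := B i) (a := u)
          have a2 := pred_card_le_card_erase (s := (B i).erase u) (a := v)
          have a3 := pred_card_le_card_erase (s := ((B i).erase u).erase v) (a := e)
          omega
        refine ((Nat.pow_le_pow_left h5 q).trans h4).trans ?_
        refine Finset.card_le_card_of_injOn (fun w => (u, v, w)) ?_ ?_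
        · intro w hw
          simp only [coe_filter, mem_univ, true_and, Set.mem_ofPred_eq, mem_erase] at hw
          simp only [coe_filter, mem_filter, mem_univ, true_and, Set.mem_ofPred_eq]
          refine ⟨⟨he w hw.1 (fun j => ?_), hu, hv, fun j => ?_, huv, hp⟩, trivial⟩
          · have := hw.2 j
            exact ⟨this.2.2.2, this.2.2.1, this.2.1, this.1⟩
          · exact (hw.2 j).2.2.2
        · intro w _ w' _ h
          simpa using h
      calc n ^ (q + 2) = (n * n) * n ^ q := by ring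
        _ ≤ (2 * #{z ∈ B i ×ˢ B i | z.1 ≠ z.2 ∧ ¬P z.1 z.2}) * (2 * (n - (q + 2))) ^ q := by
          refine Nat.mul_le_mul h2 (Nat.pow_le_pow_left ?_ q)
          omega
        _ = 2 ^ (q + 1) * (#{z ∈ B i ×ˢ B i | z.1 ≠ z.2 ∧ ¬P z.1 z.2} *
            (n - (q + 2)) ^ q) := by
          rw [mul_pow]; ring
        _ ≤ _ := Nat.mul_le_mul_left _ h3
  calc ∑ i, #(B i) ^ (q + 2) ≤ ∑ i, (K ^ (q + 2) + 2 ^ (q + 1) *
      #{T : U × U × (Fin q → U) | Good T ∧ T.1 ∈ B i ∧ T.2.1 ∈ B i ∧ ∀ j, T.2.2 j ∈ B i}) :=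
        Finset.sum_le_sum fun i _ => hone i
    _ = K ^ (q + 2) * Fintype.card I + 2 ^ (q + 1) * ∑ i,
        #{T : U × U × (Fin q → U) | Good T ∧ T.1 ∈ B i ∧ T.2.1 ∈ B i ∧ ∀ j, T.2.2 j ∈ B i} := by
        rw [Finset.sum_add_distrib, ← Finset.mul_sum, Finset.sum_const, Finset.card_univ,
          smul_eq_mul, mul_comm (Fintype.card I)]
    _ ≤ _ := by
      refine Nat.add_le_add_left (Nat.mul_le_mul_left _ ?_) _
      have hswap : ∑ i, #{T : U × U × (Fin q → U) | Good T ∧ T.1 ∈ B i ∧ T.2.1 ∈ B i ∧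
          ∀ j, T.2.2 j ∈ B i} = ∑ T : U × U × (Fin q → U), #{i | Good T ∧ T.1 ∈ B i ∧
          T.2.1 ∈ B i ∧ ∀ j, T.2.2 j ∈ B i} := by
        simp only [Finset.card_filter]
        exact Finset.sum_comm
      rw [hswap]
      have hcardT : Fintype.card (U × U × (Fin q → U)) = Fintype.card U ^ (q + 2) := by
        rw [Fintype.card_prod, Fintype.card_prod, Fintype.card_fun, Fintype.card_fin]
        ring
      rw [mul_comm M, ← hcardT, ← Finset.card_univ, ← smul_eq_mul]
      apply Finset.sum_le_card_nsmul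
      intro T _
      by_cases hT : Good T
      · refine le_trans (card_le_card ?_) (hM T hT)
        intro i hi
        simp only [mem_filter, mem_univ, true_and] at hi ⊢
        exact hi.2
      · have : #{i | Good T ∧ T.1 ∈ B i ∧ T.2.1 ∈ B i ∧ ∀ j, T.2.2 j ∈ B i} = 0 := by
          rw [card_eq_zero, filter_eq_empty_iff]
          rintro i - h
          exact hT h.1
        omega

end Pool.Agent.V5helper9.ZT
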