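import Pool.Agent.V5helper9.ZT.Types

/-!
# What the types of pairs give for the relation
-/

set_option autoImplicit false

namespace Pool.Agent.V5helper9.ZT

universe u v

variable {X : Type u} {Y : Type v} {E : X → Y → Prop}

/-- Some idempotent polymorphism does not act as a projection on `{a, b}`, first side. -/
def NtX (E : X → Y → Prop) (a b : X) : Prop :=
  ∃ (n : ℕ) (f : Pol E (Fin n)), ∀ i, ∃ A : Fin n → Bool, f.fx (tup a b A) ≠ tup a b A i

/-- Some idempotent polymorphism does not act as a projection on `{a, b}`, second side. -/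
def NtY (E : X → Y → Prop) (a b : Y) : Prop :=
  ∃ (n : ℕ) (f : Pol E (Fin n)), ∀ i, ∃ A : Fin n → Bool, f.fy (tup a b A) ≠ tup a b A i

/-- semilattice type, the value is `b` -/
def P1 {α : Type*} (β : (ZMod 2 → α) → α) (a b : α) : Prop := β (m2 a b) = b ∧ β (m2 b a) = b

/-- affine type -/
def P2 {α : Type*} (β : (ZMod 2 → α) → α) (η : (ZMod 3 → α) → α) (a b : α) : Prop :=
  β (m2 b a) = b ∧ η (t3 b a a) = b ∧ η (t3 a a b) = b

/-- majority type -/
def PM {α : Type*} (β : (ZMod 2 → α) → α) (γ η : (ZMod 3 → α) → α) (a b : α) : Prop :=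
  β (m2 b a) = b ∧ η (t3 a a b) = b ∧ γ (t3 b b a) = b ∧ γ (t3 b a b) = b ∧ γ (t3 a b b) = b

/-- the operation `h(w, w, h(u, v, w))` -/
def third (h : Pol E (ZMod 3)) : Pol E (ZMod 3) :=
  h.comp (fun i => if i = 2 then h else Pol.proj 2)

theorem third_val (ρ : Rep E) (h : Pol E (ZMod 3)) (c d e : Bool) :
    ρ.v (third h) (t3 c d e) = ρ.v h (t3 e e (ρ.v h (t3 c d e))) := by
  unfold third
  rw [ρ.comp]
  congr 1
  funext i
  have h0 : i = 0 ∨ i = 1 ∨ i = 2 := by revert i; decide
  rcases h0 with rfl | rfl | rfl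
  · exact ρ.proj _ _
  · exact ρ.proj _ _
  · rfl

/-- the classification for a pair of elements, given a representation -/
theorem forms_of_rep {α : Type*} (ρ : Rep E) (b : Pol E (ZMod 2)) (h : Pol E (ZMod 3))
    (x y : α) (β : (ZMod 2 → α) → α) (γ η : (ZMod 3 → α) → α)
    (hβ : ∀ c d : Bool, β (m2 (cond c y x) (cond d y x)) = cond (ρ.v b (m2 c d)) y x)
    (hγ : ∀ c d e : Bool, γ (t3 (cond c y x) (cond d y x) (cond e y x)) =
      cond (ρ.v h (t3 c d e)) y x)
    (hη : ∀ c d e : Bool, η (t3 (cond c y x) (cond d y x) (cond e y x)) =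
      cond (ρ.v (third h) (t3 c d e)) y x)
    (hb : (ρ.v b (m2 false true) = ρ.v b (m2 true false)) ∨
      ((∀ c d, ρ.v b (m2 c d) = c) ∧ ¬∃ g : Pol E (ZMod 2), Cyc ρ g))
    (hh : (¬∃ g : Pol E (ZMod 2), Cyc ρ g) → Cyc ρ h) :
    P1 β x y ∨ P1 β y x ∨ P2 β η x y ∨ PM β γ η x y := by
  rcases classify ρ b h hb hh with ⟨h1, h2⟩ | ⟨h1, h2⟩ | ⟨h1, h2⟩ | ⟨h1, h2, h3, h4, h5, h6, h7⟩
  · left
    have a1 := hβ false true
    have a2 := hβ true false
    rw [h1] at a1
    rw [h2] at a2
    exact ⟨a1, a2⟩
  · right; left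
    have a1 := hβ false true
    have a2 := hβ true false
    rw [h1] at a1
    rw [h2] at a2
    exact ⟨a2, a1⟩
  · right; right; left
    have a2 := hβ true false
    rw [h1] at a2
    have a3 := hη true false false
    have a4 := hη false false true
    rw [third_val, h2, h2] at a3 a4
    exact ⟨a2, a3, a4⟩
  · right; right; right
    have a2 := hβ true false
    rw [h1] at a2
    have a4 := hη false false true
    rw [third_val, h4, h7] at a4
    have a5 := hγ true true false
    have a6 := hγ true false true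
    have a7 := hγ false true true
    rw [h7] at a5
    rw [h6] at a6
    rw [h5] at a7
    exact ⟨a2, a4, a5, a6, a7⟩

/-- **The algebraic part.** -/
theorem types [Finite X] [Finite Y] (hX : ∀ a b : X, a ≠ b → NtX E a b)
    (hY : ∀ a b : Y, a ≠ b → NtY E a b) :
    ∃ (DX MX : X → X → Prop) (DY MY : Y → Y → Prop),
      (∀ a b : X, a ≠ b → DX a b ∨ DX b a ∨ MX a b ∨
        ∃ c, c ≠ a ∧ c ≠ b ∧ ∀ y, E a y → E b y → E c y) ∧
      (∀ a b : Y, a ≠ b → DY a b ∨ DY b a ∨ MY a b ∨
        ∃ c, c ≠ a ∧ c ≠ b ∧ ∀ x, E x a → E x b → E x c) ∧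
      (∀ x y x' y', E x y → E x' y → E x y' →
        (DX x x' ∧ (DY y y' ∨ MY y y') ∨ MX x x' ∧ DY y y') → E x' y') ∧
      (∀ y0 x1 x2 x3, E x1 y0 → E x2 y0 → E x3 y0 → ∃ z, ∀ y, MY y0 y →
        ((E x1 y ∧ E x2 y) ∨ (E x1 y ∧ E x3 y) ∨ (E x2 y ∧ E x3 y)) → E z y) := by
  classical
  have := Fintype.ofFinite X
  have := Fintype.ofFinite Y
  let Q := {p : X × X // p.1 ≠ p.2 ∧ ClX E p.1 p.2} ⊕ {p : Y × Y // p.1 ≠ p.2 ∧ ClY E p.1 p.2}
  let R : Q → Rep E := Sum.elim (fun p => repX p.2.1 p.2.2) (fun p => repY p.2.1 p.2.2)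
  have : Fintype Q := Fintype.ofFinite Q
  obtain ⟨b, hb⟩ := exists_bin R Finset.univ
  obtain ⟨h, hh⟩ := exists_uniform (G := ZMod 3) R Finset.univ
  have hcyc : ∀ q : Q, (¬∃ g : Pol E (ZMod 2), Cyc (R q) g) → Cyc (R q) h := by
    intro q hq
    apply hh q (Finset.mem_univ q)
    rcases q with ⟨⟨a, c⟩, hac, hcl⟩ | ⟨⟨a, c⟩, hac, hcl⟩
    · obtain ⟨n, f, hf⟩ := hX a c hac
      refine exists_cyc3 _ hq f ?_
      intro i
      obtain ⟨A, hA⟩ := hf i
      refine ⟨A, fun he => hA ?_⟩
      rw [repX_val hac hcl]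
      have he' : (repX hac hcl).v f A = A i := he
      rw [he']
      rfl
    · obtain ⟨n, f, hf⟩ := hY a c hac
      refine exists_cyc3 _ hq f ?_
      intro i
      obtain ⟨A, hA⟩ := hf i
      refine ⟨A, fun he => hA ?_⟩
      rw [repY_val hac hcl]
      have he' : (repY hac hcl).v f A = A i := he
      rw [he']
      rfl
  refine ⟨fun x x' => P1 b.fx x x' ∨ P2 b.fx (third h).fx x x',
    fun x x' => PM b.fx h.fx (third h).fx x x',
    fun y y' => P1 b.fy y y' ∨ P2 b.fy (third h).fy y y',
    fun y y' => PM b.fy h.fy (third h).fy y y', ?_, ?_, ?_, ?_⟩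
  · intro x x' hne
    by_cases hcl : ClX E x x'
    · have key := forms_of_rep (R (Sum.inl ⟨(x, x'), hne, hcl⟩)) b h x x' b.fx h.fx (third h).fx
        (by
          intro c d
          rw [← tup_m2]
          exact repX_val hne hcl b _)
        (by
          intro c d e
          rw [← tup_t3]
          exact repX_val hne hcl h _)
        (by
          intro c d e
          rw [← tup_t3]
          exact repX_val hne hcl (third h) _)
        (hb _ (Finset.mem_univ _)) (hcyc _)
      rcases key with key | key | key | key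
      · exact Or.inl (Or.inl key)
      · exact Or.inr (Or.inl (Or.inl key))
      · exact Or.inl (Or.inr key)
      · exact Or.inr (Or.inr (Or.inl key))
    · right; right; right
      unfold ClX at hcl
      push Not at hcl
      obtain ⟨g, hg1, hg2⟩ := hcl
      refine ⟨g.fx (m2 x x'), hg1, hg2, ?_⟩
      intro y h1 h2
      have := g.pres (m2 x x') (fun _ => y) (by
        intro i
        unfold m2
        split_ifs
        · exact h1
        · exact h2)
      rwa [g.idy] at this
  · intro y y' hne
    by_cases hcl : ClY E y y'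
    · have key := forms_of_rep (R (Sum.inr ⟨(y, y'), hne, hcl⟩)) b h y y' b.fy h.fy (third h).fy
        (by
          intro c d
          rw [← tup_m2]
          exact repY_val hne hcl b _)
        (by
          intro c d e
          rw [← tup_t3]
          exact repY_val hne hcl h _)
        (by
          intro c d e
          rw [← tup_t3]
          exact repY_val hne hcl (third h) _)
        (hb _ (Finset.mem_univ _)) (hcyc _)
      rcases key with key | key | key | key
      · exact Or.inl (Or.inl key)
      · exact Or.inr (Or.inl (Or.inl key))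
      · exact Or.inl (Or.inr key)
      · exact Or.inr (Or.inr (Or.inl key))
    · right; right; right
      unfold ClY at hcl
      push Not at hcl
      obtain ⟨g, hg1, hg2⟩ := hcl
      refine ⟨g.fy (m2 y y'), hg1, hg2, ?_⟩
      intro x h1 h2
      have := g.pres (fun _ => x) (m2 y y') (by
        intro i
        unfold m2
        split_ifs
        · exact h1
        · exact h2)
      rwa [g.idx] at this
  · intro x y x' y' h0 h1 h2 hty
    have two : ∀ (u v : X) (w z : Y), E u w → E v z → E (b.fx (m2 u v)) (b.fy (m2 w z)) := by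
      intro u v w z huw hvz
      apply b.pres
      intro i
      unfold m2
      split_ifs
      · exact huw
      · exact hvz
    have three : ∀ (u v r : X) (w z s : Y), E u w → E v z → E r s →
        E ((third h).fx (t3 u v r)) ((third h).fy (t3 w z s)) := by
      intro u v r w z s huw hvz hrs
      apply (third h).pres
      intro i
      unfold t3
      split_ifs
      · exact huw
      · exact hvz
      · exact hrs
    rcases hty with ⟨hD, hD'⟩ | ⟨hM, hD'⟩
    · rcases hD with hD | hD
      · rcases hD' with (hD' | hD') | hD'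
        · have := two x' x y y' h1 h2
          rwa [hD.2, hD'.1] at this
        · have := two x x' y' y h2 h1
          rwa [hD.1, hD'.1] at this
        · have := two x x' y' y h2 h1
          rwa [hD.1, hD'.1] at this
      · rcases hD' with (hD' | hD') | hD'
        · have := two x' x y y' h1 h2
          rwa [hD.1, hD'.1] at this
        · have := three x' x x y y y' h1 h0 h2
          rwa [hD.2.1, hD'.2.2] at this
        · have := three x' x x y y y' h1 h0 h2
          rwa [hD.2.1, hD'.2.1] at this
    · rcases hD' with hD' | hD'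
      · have := two x' x y y' h1 h2
        rwa [hM.1, hD'.1] at this
      · have := three x x x' y' y y h2 h0 h1
        rwa [hM.2.1, hD'.2.1] at this
  · intro y0 x1 x2 x3 h1 h2 h3
    refine ⟨h.fx (t3 x1 x2 x3), ?_⟩
    intro y hM hor
    have three : ∀ (w z s : Y), E x1 w → E x2 z → E x3 s →
        E (h.fx (t3 x1 x2 x3)) (h.fy (t3 w z s)) := by
      intro w z s huw hvz hrs
      apply h.pres
      intro i
      unfold t3
      split_ifs
      · exact huw
      · exact hvz
      · exact hrs
    rcases hor with ⟨h4, h5⟩ | ⟨h4, h5⟩ | ⟨h4, h5⟩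
    · have := three y y y0 h4 h5 h3
      rwa [hM.2.2.1] at this
    · have := three y y0 y h4 h2 h5
      rwa [hM.2.2.2.1] at this
    · have := three y0 y y h1 h4 h5
      rwa [hM.2.2.2.2] at this

end Pool.Agent.V5helper9.ZT
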