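import Pool.Agent.V5helper9.ZT.Core

/-!
# The Turan step and the combination
-/

set_option autoImplicit false

namespace Pool.Agent.V5helper9.ZT

open Finset
open scoped Classical

/-- tuples of different elements -/
def Inj {X : Type*} {q : ℕ} (S : X × X × (Fin q → X)) : Prop :=
  S.1 ≠ S.2.1 ∧ Function.Injective S.2.2 ∧ ∀ j, S.2.2 j ≠ S.1 ∧ S.2.2 j ≠ S.2.1

/-- the three tuples in a large tuple -/
def sub3 {X : Type*} {q : ℕ} (k : Fin 3) (w : Fin 3 ⊕ Fin 3 × Fin q → X) : X × X × (Fin q → X) :=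
  (w (Sum.inl (k + 1)), w (Sum.inl (k + 2)), fun j => w (Sum.inr (k, j)))

theorem fin3 (k i : Fin 3) : i = k ∨ i = k + 1 ∨ i = k + 2 := by
  revert k i; decide

theorem fin3_ne (k : Fin 3) : k + 1 ≠ k + 2 := by
  revert k; decide

theorem fin3_cases (k : Fin 3) : k = 0 ∨ k = 1 ∨ k = 2 := by
  revert k; decide

variable {X Y : Type*} [Fintype X] [Fintype Y] (E : X → Y → Prop) (q t : ℕ)

theorem card_sub3 (A : Finset X) (k : Fin 3) (Bad : Finset (X × X × (Fin q → X))) :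
    #{w : Fin 3 ⊕ Fin 3 × Fin q → X | (∀ i, w i ∈ A) ∧ sub3 k w ∈ Bad} ≤
      #Bad * #A ^ (2 * q + 1) := by
  have h1 : #(Bad ×ˢ (A ×ˢ (Fintype.piFinset (fun _ : Fin q => A) ×ˢ
      Fintype.piFinset (fun _ : Fin q => A)))) = #Bad * #A ^ (2 * q + 1) := by
    rw [card_product, card_product, card_product, Fintype.card_piFinset_const]
    ring
  rw [← h1]
  refine Finset.card_le_card_of_injOn (fun w => (sub3 k w, w (Sum.inl k),
    (fun j => w (Sum.inr (k + 1, j))), (fun j => w (Sum.inr (k + 2, j))))) ?_ ?_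
  · intro w hw
    simp only [coe_filter, mem_univ, true_and, Set.mem_ofPred_eq] at hw
    simp only [coe_product, Set.mem_prod, mem_coe, Fintype.mem_piFinset]
    exact ⟨hw.2, hw.1 _, fun j => hw.1 _, fun j => hw.1 _⟩
  · intro w _ w' _ h
    simp only [sub3, Prod.mk.injEq] at h
    obtain ⟨⟨h1, h2, h3⟩, h4, h5, h6⟩ := h
    funext i
    rcases i with i | ⟨i, j⟩
    · rcases fin3 k i with rfl | rfl | rfl
      · exact h4
      · exact h1
      · exact h2
    · rcases fin3 k i with rfl | rfl | rfl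
      · exact congrFun h3 j
      · exact congrFun h5 j
      · exact congrFun h6 j

theorem turan (E0 : X → Y → Prop) (MY : Y → Y → Prop)
    (hf1 : ∀ (S : Finset X) (T : Finset Y), q + 3 ≤ #S → t ≤ #T → ¬∀ x ∈ S, ∀ y ∈ T, E x y)
    (h0 : ∀ x y, E0 x y → E x y)
    (F3 : ∀ y0 x1 x2 x3, E x1 y0 → E x2 y0 → E x3 y0 → ∃ z, ∀ y, MY y0 y →
        ((E x1 y ∧ E x2 y) ∨ (E x1 y ∧ E x3 y) ∨ (E x2 y ∧ E x3 y)) → E z y) (y : Y) :
    #{x | E0 x y} ^ (q + 2) ≤ (2 * (3 + 3 * q)) ^ (q + 2) + 3 * 2 ^ (3 + 3 * q) *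
      #{S : X × X × (Fin q → X) | Inj S ∧ Adj E0 S y ∧ #{y' | Adj E0 S y' ∧ MY y y'} < t} := by
  set A : Finset X := {x | E0 x y} with hA
  set n := #A with hn
  set Bad : Finset (X × X × (Fin q → X)) :=
    {S | Inj S ∧ Adj E0 S y ∧ #{y' | Adj E0 S y' ∧ MY y y'} < t} with hBad
  by_cases hnm : n < 2 * (3 + 3 * q)
  · exact (Nat.pow_le_pow_left hnm.le _).trans (Nat.le_add_right _ _)
  rw [not_lt] at hnm
  refine le_trans ?_ (Nat.le_add_left _ _)
  have hinj := card_inj (κ := Fin 3 ⊕ Fin 3 × Fin q) A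
  have hκ : Fintype.card (Fin 3 ⊕ Fin 3 × Fin q) = 3 + 3 * q := by
    simp
  rw [hκ] at hinj
  have hsub : ({w : Fin 3 ⊕ Fin 3 × Fin q → X | Function.Injective w ∧ ∀ i, w i ∈ A} :
      Finset _) ⊆ Finset.univ.biUnion (fun k : Fin 3 =>
        {w : Fin 3 ⊕ Fin 3 × Fin q → X | (∀ i, w i ∈ A) ∧ sub3 k w ∈ Bad}) := by
    intro w hw
    simp only [mem_filter, mem_univ, true_and] at hw
    obtain ⟨hwi, hwA⟩ := hw
    simp only [mem_biUnion, mem_univ, true_and, mem_filter]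
    by_contra hno
    push Not at hno
    have hadj : ∀ i, E0 (w i) y := fun i => by
      have := hwA i
      simpa [hA] using this
    have hI : ∀ k, Inj (sub3 k w) := by
      intro k
      refine ⟨?_, ?_, ?_⟩
      · intro h
        have h' := hwi h
        rw [Sum.inl.injEq] at h'
        exact fin3_ne k h'
      · intro j j' h
        have h' := hwi h
        simpa using h'
      · intro j
        refine ⟨fun h => ?_, fun h => ?_⟩
        · exact absurd (hwi h) (by simp)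
        · exact absurd (hwi h) (by simp)
    have hlarge : ∀ k, t ≤ #{y' | Adj E0 (sub3 k w) y' ∧ MY y y'} := by
      intro k
      by_contra hlt
      rw [not_le] at hlt
      apply hno k hwA
      simp only [hBad, mem_filter, mem_univ, true_and]
      exact ⟨hI k, ⟨hadj _, hadj _, fun j => hadj _⟩, hlt⟩
    obtain ⟨z, hz⟩ := F3 y (w (Sum.inl 0)) (w (Sum.inl 1)) (w (Sum.inl 2)) (h0 _ _ (hadj _))
      (h0 _ _ (hadj _)) (h0 _ _ (hadj _))
    -- `z` is an element of each of the three tuples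
    have hmem : ∀ k : Fin 3, z = w (Sum.inl (k + 1)) ∨ z = w (Sum.inl (k + 2)) ∨
        ∃ j, w (Sum.inr (k, j)) = z := by
      intro k
      by_contra hno'
      push Not at hno'
      obtain ⟨b1, b2, b3⟩ := hno'
      refine hf1 _ _ (card_tuple (sub3 k w) z (hI k).1 (hI k).2.1 (hI k).2.2 b1 b2 b3).ge
        (hlarge k) ?_
      intro x hx y' hy'
      simp only [mem_filter, mem_univ, true_and] at hy'
      obtain ⟨⟨c1, c2, c3⟩, c4⟩ := hy'
      simp only [mem_insert, mem_image, mem_univ, true_and] at hx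
      rcases hx with rfl | rfl | rfl | ⟨j, rfl⟩
      · apply hz y' c4
        have c1' := h0 _ _ c1
        have c2' := h0 _ _ c2
        rcases fin3_cases k with rfl | rfl | rfl
        · exact Or.inr (Or.inr ⟨c1', c2'⟩)
        · exact Or.inr (Or.inl ⟨c2', c1'⟩)
        · exact Or.inl ⟨c1', c2'⟩
      · exact h0 _ _ c1
      · exact h0 _ _ c2
      · exact h0 _ _ (c3 j)
    have d0 := hmem 0
    have d1 := hmem 1
    have d2 := hmem 2
    rcases d0 with d0 | d0 | ⟨j0, d0⟩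
    · rcases d1 with d1 | d1 | ⟨j1, d1⟩
      · exact absurd (Sum.inl.inj (hwi (d0.symm.trans d1))) (by decide)
      · exact absurd (Sum.inl.inj (hwi (d0.symm.trans d1))) (by decide)
      · exact absurd (hwi (d1.trans d0)) (by simp)
    · rcases d1 with d1 | d1 | ⟨j1, d1⟩
      · rcases d2 with d2 | d2 | ⟨j2, d2⟩
        · exact absurd (Sum.inl.inj (hwi (d0.symm.trans d2))) (by decide)
        · exact absurd (Sum.inl.inj (hwi (d0.symm.trans d2))) (by decide)
        · exact absurd (hwi (d2.trans d0)) (by simp)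
      · exact absurd (Sum.inl.inj (hwi (d0.symm.trans d1))) (by decide)
      · exact absurd (hwi (d1.trans d0)) (by simp)
    · rcases d1 with d1 | d1 | ⟨j1, d1⟩
      · exact absurd (hwi (d0.trans d1)) (by simp)
      · exact absurd (hwi (d0.trans d1)) (by simp)
      · have := hwi (d0.trans d1.symm)
        simp at this
  have hle : #{w : Fin 3 ⊕ Fin 3 × Fin q → X | Function.Injective w ∧ ∀ i, w i ∈ A} ≤
      3 * (#Bad * n ^ (2 * q + 1)) := by
    refine (card_le_card hsub).trans (card_biUnion_le.trans ?_)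
    refine (Finset.sum_le_card_nsmul _ _ _ fun k _ => card_sub3 q A k Bad).trans ?_
    rw [Finset.card_univ, Fintype.card_fin, smul_eq_mul]
  have hpos : 0 < n := by omega
  have hfin : n ^ (2 * q + 1) * n ^ (q + 2) ≤ n ^ (2 * q + 1) * (3 * 2 ^ (3 + 3 * q) * #Bad) := by
    calc n ^ (2 * q + 1) * n ^ (q + 2) = n ^ (3 + 3 * q) := by rw [← pow_add]; congr 1; ring
      _ ≤ (2 * (n + 1 - (3 + 3 * q))) ^ (3 + 3 * q) := Nat.pow_le_pow_left (by omega) _
      _ = 2 ^ (3 + 3 * q) * (n + 1 - (3 + 3 * q)) ^ (3 + 3 * q) := by rw [mul_pow]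
      _ ≤ 2 ^ (3 + 3 * q) * (3 * (#Bad * n ^ (2 * q + 1))) :=
        Nat.mul_le_mul_left _ (hinj.trans hle)
      _ = n ^ (2 * q + 1) * (3 * 2 ^ (3 + 3 * q) * #Bad) := by ring
  exact Nat.le_of_mul_le_mul_left hfin (by positivity)

/-- the constant -/
def Cst (q t : ℕ) : ℕ :=
  2 ^ (q + 2) * (((2 * (3 * t + 1) + 2 * (q + 2)) ^ (q + 2) + 2 ^ (q + 1) * t) +
    ((2 * (3 + 3 * q)) ^ (q + 2) + 3 * 2 ^ (3 + 3 * q) *
      ((2 * (3 * t + 1) + 2 * (q + 2)) ^ (q + 2) + 2 ^ (q + 1) * t ^ (q + 2))))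

/-- **The combinatorial core.** -/
theorem core (DX MX : X → X → Prop) (DY MY : Y → Y → Prop) (ht : q + 3 ≤ t)
    (hf1 : ∀ (S : Finset X) (T : Finset Y), q + 3 ≤ #S → t ≤ #T → ¬∀ x ∈ S, ∀ y ∈ T, E x y)
    (hf2 : ∀ (S : Finset X) (T : Finset Y), t ≤ #S → q + 3 ≤ #T → ¬∀ x ∈ S, ∀ y ∈ T, E x y)
    (HX : ∀ a b : X, a ≠ b → DX a b ∨ DX b a ∨ MX a b ∨
        ∃ c, c ≠ a ∧ c ≠ b ∧ ∀ y, E a y → E b y → E c y)
    (HY : ∀ a b : Y, a ≠ b → DY a b ∨ DY b a ∨ MY a b ∨
        ∃ c, c ≠ a ∧ c ≠ b ∧ ∀ x, E x a → E x b → E x c)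
    (F2 : ∀ x y x' y', E x y → E x' y → E x y' → (DX x x' ∨ MX x x') → DY y y' → E x' y')
    (F3 : ∀ y0 x1 x2 x3, E x1 y0 → E x2 y0 → E x3 y0 → ∃ z, ∀ y, MY y0 y →
        ((E x1 y ∧ E x2 y) ∨ (E x1 y ∧ E x3 y) ∨ (E x2 y ∧ E x3 y)) → E z y) :
    #{z : X × Y | E z.1 z.2} ^ (q + 2) ≤
      Cst q t * (Fintype.card X + Fintype.card Y) ^ (2 * q + 3) := by
  set N := Fintype.card X + Fintype.card Y with hN
  rcases Nat.eq_zero_or_pos N with hN0 | hNpos
  · have hX : Fintype.card X = 0 := by omega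
    have : IsEmpty X := Fintype.card_eq_zero_iff.1 hX
    have h0 : #{z : X × Y | E z.1 z.2} = 0 := by
      rw [card_eq_zero, filter_eq_empty_iff]
      rintro ⟨x, -⟩
      exact isEmptyElim x
    rw [h0]
    simp
  obtain ⟨E0, hE0⟩ : ∃ E0 : X → Y → Prop, ∀ x y, E0 x y ↔
      (E x y ∧ #{y' | E x y' ∧ DY y y'} < t) := ⟨_, fun _ _ => Iff.rfl⟩
  set R := ∑ y, #{x | E x y ∧ t ≤ #{y' | E x y' ∧ DY y y'}} with hR
  set Z := ∑ y, #{x | E0 x y} with hZ
  have hsum : #{z : X × Y | E z.1 z.2} ≤ R + Z := by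
    rw [Finset.card_filter, ← Finset.univ_product_univ, Finset.sum_product_right, hR, hZ,
      ← Finset.sum_add_distrib]
    refine Finset.sum_le_sum fun y _ => ?_
    rw [← Finset.card_filter]
    refine (card_le_card ?_).trans (card_union_le _ _)
    intro x hx
    simp only [mem_filter, mem_univ, true_and, mem_union, hE0] at hx ⊢
    by_cases h : t ≤ #{y' | E x y' ∧ DY y y'}
    · exact Or.inl ⟨hx, h⟩
    · exact Or.inr ⟨hx, not_le.1 h⟩
  have hXN : Fintype.card X ≤ N := Nat.le_add_right _ _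
  have hYN : Fintype.card Y ≤ N := Nat.le_add_left _ _
  have hNN : N ≤ N ^ (q + 2) := Nat.le_self_pow (by omega) N
  set K := 2 * (3 * t + 1) + 2 * (q + 2) with hK
  have hXN' : Fintype.card X ^ (q + 2) ≤ N ^ (q + 2) := Nat.pow_le_pow_left hXN _
  have hYN' : Fintype.card Y ^ (q + 2) ≤ N ^ (q + 2) := Nat.pow_le_pow_left hYN _
  -- first part
  have h1 : R ^ (q + 2) ≤ (K ^ (q + 2) + 2 ^ (q + 1) * t) * N ^ (2 * q + 3) := by
    have hb := boundR E q t DX MX DY ht hf1 HX F2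
    rw [← hK] at hb
    calc R ^ (q + 2) ≤ Fintype.card Y ^ (q + 1) * ∑ y, #{x | E x y ∧
          t ≤ #{y' | E x y' ∧ DY y y'}} ^ (q + 2) := powmean _ (q + 1)
      _ ≤ N ^ (q + 1) * (K ^ (q + 2) * N ^ (q + 2) + 2 ^ (q + 1) * (t * N ^ (q + 2))) := by
        refine Nat.mul_le_mul (Nat.pow_le_pow_left hYN _) (hb.trans ?_)
        exact Nat.add_le_add (Nat.mul_le_mul_left _ (hYN.trans hNN))
          (Nat.mul_le_mul_left _ (Nat.mul_le_mul_left _ hXN'))
      _ = (K ^ (q + 2) + 2 ^ (q + 1) * t) * N ^ (2 * q + 3) := by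
        have : N ^ (2 * q + 3) = N ^ (q + 1) * N ^ (q + 2) := by
          rw [← pow_add]; congr 1; ring
        rw [this]; ring
  -- second part
  have h2 : Z ^ (q + 2) ≤ ((2 * (3 + 3 * q)) ^ (q + 2) + 3 * 2 ^ (3 + 3 * q) *
      (K ^ (q + 2) + 2 ^ (q + 1) * t ^ (q + 2))) * N ^ (2 * q + 3) := by
    have hE0' : ∀ x y, E0 x y → E x y := fun x y h => ((hE0 x y).1 h).1
    have hb := boundS E q t E0 DY MY hf2 HY hE0' (fun x y h => ((hE0 x y).1 h).2) Inj
    rw [← hK] at hb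
    have ht1 : ∀ y, #{x | E0 x y} ^ (q + 2) ≤ (2 * (3 + 3 * q)) ^ (q + 2) +
        3 * 2 ^ (3 + 3 * q) * #{S : X × X × (Fin q → X) | Inj S ∧ Adj E0 S y ∧
          #{y' | Adj E0 S y' ∧ MY y y'} < t} := turan E q t E0 MY hf1 hE0' F3
    have hswap : ∑ y, #{S : X × X × (Fin q → X) | Inj S ∧ Adj E0 S y ∧
          #{y' | Adj E0 S y' ∧ MY y y'} < t} =
        ∑ S : X × X × (Fin q → X), #{y | Inj S ∧ Adj E0 S y ∧
          #{y' | Adj E0 S y' ∧ MY y y'} < t} := by
      simp only [Finset.card_filter]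
      exact Finset.sum_comm
    have hle : ∑ S : X × X × (Fin q → X), #{y | Inj S ∧ Adj E0 S y ∧
          #{y' | Adj E0 S y' ∧ MY y y'} < t} ≤ ∑ S : X × X × (Fin q → X),
        #{y | Inj S ∧ Adj E0 S y ∧ #{y' | Adj E0 S y' ∧ MY y y'} < t} ^ (q + 2) :=
      Finset.sum_le_sum fun S _ => Nat.le_self_pow (by omega) _
    calc Z ^ (q + 2) ≤ Fintype.card Y ^ (q + 1) * ∑ y, #{x | E0 x y} ^ (q + 2) :=
          powmean _ (q + 1)
      _ ≤ N ^ (q + 1) * ((2 * (3 + 3 * q)) ^ (q + 2) * N ^ (q + 2) + 3 * 2 ^ (3 + 3 * q) *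
          (K ^ (q + 2) * N ^ (q + 2) + 2 ^ (q + 1) * (t ^ (q + 2) * N ^ (q + 2)))) := by
        refine Nat.mul_le_mul (Nat.pow_le_pow_left hYN _) ?_
        refine (Finset.sum_le_sum fun y _ => ht1 y).trans ?_
        rw [Finset.sum_add_distrib, ← Finset.mul_sum, hswap, Finset.sum_const, Finset.card_univ,
          smul_eq_mul, mul_comm (Fintype.card Y)]
        refine Nat.add_le_add (Nat.mul_le_mul_left _ (hYN.trans hNN))
          (Nat.mul_le_mul_left _ ((hle.trans hb).trans ?_))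
        exact Nat.add_le_add (Nat.mul_le_mul_left _ hXN')
          (Nat.mul_le_mul_left _ (Nat.mul_le_mul_left _ hYN'))
      _ = _ := by
        have : N ^ (2 * q + 3) = N ^ (q + 1) * N ^ (q + 2) := by
          rw [← pow_add]; congr 1; ring
        rw [this]; ring
  have h3 : (R + Z) ^ (q + 2) ≤ 2 ^ (q + 2) * (R ^ (q + 2) + Z ^ (q + 2)) := by
    have a1 : R + Z ≤ 2 * max R Z := by
      have := le_max_left R Z
      have := le_max_right R Z
      omega
    refine (Nat.pow_le_pow_left a1 _).trans ?_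
    rw [mul_pow]
    refine Nat.mul_le_mul_left _ ?_
    rcases max_choice R Z with h | h <;> rw [h]
    · exact Nat.le_add_right _ _
    · exact Nat.le_add_left _ _
  calc #{z : X × Y | E z.1 z.2} ^ (q + 2) ≤ (R + Z) ^ (q + 2) := Nat.pow_le_pow_left hsum _
    _ ≤ 2 ^ (q + 2) * (R ^ (q + 2) + Z ^ (q + 2)) := h3
    _ ≤ 2 ^ (q + 2) * ((K ^ (q + 2) + 2 ^ (q + 1) * t) * N ^ (2 * q + 3) +
        ((2 * (3 + 3 * q)) ^ (q + 2) + 3 * 2 ^ (3 + 3 * q) *
          (K ^ (q + 2) + 2 ^ (q + 1) * t ^ (q + 2))) * N ^ (2 * q + 3)) :=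
      Nat.mul_le_mul_left _ (Nat.add_le_add h1 h2)
    _ = _ := by
      unfold Cst
      rw [← hK]
      ring

end Pool.Agent.V5helper9.ZT
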