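import Pool.Agent.V5helper9.ZT.Forms
import Pool.Agent.V5helper9.ZT.Turan
import Pool.Agent.TH602.Turan.Bip

/-!
# Relations without `K_{s,t}` with many elements have only trivial idempotent polymorphisms on some
pair
-/

set_option autoImplicit false

namespace Pool.Agent.V5helper9.ZT

universe u v

open Pool.Agent.TH602.Turan

/-- If every pair of different elements on one side has an idempotent polymorphism that does not
act on it as a projection then the relation is small. -/
theorem upper (s t : ℕ) (hs : 3 ≤ s) (hst : s ≤ t) (X : Type u) (Y : Type v) [Fintype X]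
    [Fintype Y] (E : Set (X × Y))
    (hfree : (completeBipartiteGraph (Fin s) (Fin t)).Free (relGraph E))
    (hX : ∀ a b : X, a ≠ b → NtX (fun x y => (x, y) ∈ E) a b)
    (hY : ∀ a b : Y, a ≠ b → NtY (fun x y => (x, y) ∈ E) a b) :
    (E.ncard : ℝ) ≤ (Cst (s - 3) t : ℝ) *
      ((Fintype.card X + Fintype.card Y : ℕ) : ℝ) ^ (2 - 1 / ((s : ℝ) - 1)) := by
  classical
  obtain ⟨DX, MX, DY, MY, HX, HY, F2, F3⟩ := types hX hY
  obtain ⟨q, rfl⟩ : ∃ q, s = q + 3 := ⟨s - 3, by omega⟩
  rw [Nat.add_sub_cancel]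
  have h := core (fun x y => (x, y) ∈ E) q t DX MX DY MY hst
    (fun S T hS hT h => not_free_left S T hS hT h hfree)
    (fun S T hS hT h => not_free_right S T hS hT h hfree) HX HY
    (fun x y x' y' h0 h1 h2 h3 h4 => F2 x y x' y' h0 h1 h2 (by
      rcases h3 with h3 | h3
      · exact Or.inl ⟨h3, Or.inl h4⟩
      · exact Or.inr ⟨h3, h4⟩)) F3
  have hcard : E.ncard = (Finset.filter (fun z : X × Y => (z.1, z.2) ∈ E) Finset.univ).card := by
    rw [← Set.ncard_coe_finset]
    congr 1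
    ext z
    simp
  rw [← hcard] at h
  set N := Fintype.card X + Fintype.card Y
  have hp : (0 : ℝ) < ((q + 2 : ℕ) : ℝ) := by positivity
  have h1 : ((N : ℝ) ^ (2 - 1 / (((q + 3 : ℕ) : ℝ) - 1))) ^ (q + 2) =
      (N : ℝ) ^ (2 * q + 3 : ℕ) := by
    rw [← Real.rpow_natCast, ← Real.rpow_mul (Nat.cast_nonneg _), ← Real.rpow_natCast]
    congr 1
    have h3 : (((q + 3 : ℕ) : ℝ) - 1) = ((q + 2 : ℕ) : ℝ) := by push_cast; ring
    rw [h3, sub_mul, div_mul_cancel₀ _ hp.ne']
    push_cast
    ring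
  refine le_of_pow_le_pow_left₀ (n := q + 2) (by omega) (by positivity) ?_
  rw [mul_pow, h1]
  have h2 : E.ncard ^ (q + 2) ≤ Cst q t ^ (q + 2) * N ^ (2 * q + 3) :=
    h.trans (Nat.mul_le_mul_right _ (Nat.le_self_pow (by omega) _))
  exact_mod_cast h2

end Pool.Agent.V5helper9.ZT
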