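import Pool.Agent.V5helper9.ZT.Clone

/-!
# Types of two-element subalgebras

`exists_cyc3`: a non-trivial idempotent clone on two elements without commutative binary operation
contains a ternary operation invariant under cyclic shifts (majority or minority).
`types`: the uniform classification of the pairs of elements (`semilattice`, `affine`, `majority`)
and what it gives for the relation `E`.
-/

set_option autoImplicit false

namespace Pool.Agent.V5helper9.ZT

universe u v

variable {X : Type u} {Y : Type v} {E : X → Y → Prop}

/-- indicator function of a set of arguments -/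
noncomputable def ind {ι : Type} (S : Set ι) : ι → Bool := by
  classical exact fun i => decide (i ∈ S)

theorem ind_apply {ι : Type} (S : Set ι) (i : ι) : ind S i = true ↔ i ∈ S := by
  classical simp [ind]

theorem ind_compl {ι : Type} (S : Set ι) : (fun i => !ind S i) = ind Sᶜ := by
  classical
  funext i
  simp only [ind, Set.mem_compl_iff, decide_not]

theorem eq_ind {ι : Type} (A : ι → Bool) : A = ind {i | A i = true} := by
  classical
  funext i
  simp [ind]

/-- no ternary cyclic operation: the values on three parts of the set of arguments -/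
theorem one_of_three (ρ : Rep E) (hn : ¬∃ g : Pol E (ZMod 2), Cyc ρ g)
    (hn3 : ¬∃ g : Pol E (ZMod 3), Cyc ρ g) (g : Pol E (ZMod 3)) :
    (ρ.v g (t3 true false false) = true ∧ ρ.v g (t3 false true false) = false ∧
      ρ.v g (t3 false false true) = false) ∨
    (ρ.v g (t3 true false false) = false ∧ ρ.v g (t3 false true false) = true ∧
      ρ.v g (t3 false false true) = false) ∨
    (ρ.v g (t3 true false false) = false ∧ ρ.v g (t3 false true false) = false ∧
      ρ.v g (t3 false false true) = true) := by
  have hneg : ∀ (f : Pol E (ZMod 3)) (a b c : Bool), ρ.v f (t3 (!a) (!b) (!c)) =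
      !ρ.v f (t3 a b c) := by
    intro f a b c
    rw [← selfdual ρ hn f]
    congr 1
    funext i
    unfold t3
    split_ifs <;> rfl
  have hcyc : ∀ f : Pol E (ZMod 3), ρ.v f (t3 true false false) = ρ.v f (t3 false true false) →
      ρ.v f (t3 true false false) = ρ.v f (t3 false false true) → False := by
    intro f h1 h2
    apply hn3
    refine ⟨f, cyc3_of ρ f (ρ.v f (t3 true false false)) (!ρ.v f (t3 true false false)) rfl
      h1.symm h2.symm ?_ ?_ ?_⟩
    · exact hneg f true false false
    · rw [h1]
      exact hneg f false true false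
    · rw [h2]
      exact hneg f false false true
  -- two values `true`, one value `false`
  have h12 : ρ.v g (t3 true true false) = !ρ.v g (t3 false false true) := hneg g false false true
  have h02 : ρ.v g (t3 true false true) = !ρ.v g (t3 false true false) := hneg g false true false
  have h01 : ρ.v g (t3 false true true) = !ρ.v g (t3 true false false) := hneg g true false false
  have comp0 : ∀ a b c, ρ.v (g.comp (fun i => if i = 0 then g else Pol.proj i)) (t3 a b c) =
      ρ.v g (t3 (ρ.v g (t3 a b c)) b c) := by
    intro a b c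
    rw [ρ.comp]
    congr 1
    funext i
    have h0 : i = 0 ∨ i = 1 ∨ i = 2 := by revert i; decide
    rcases h0 with rfl | rfl | rfl
    · rfl
    · exact ρ.proj _ _
    · exact ρ.proj _ _
  have comp1 : ∀ a b c, ρ.v (g.comp (fun i => if i = 1 then g else Pol.proj i)) (t3 a b c) =
      ρ.v g (t3 a (ρ.v g (t3 a b c)) c) := by
    intro a b c
    rw [ρ.comp]
    congr 1
    funext i
    have h0 : i = 0 ∨ i = 1 ∨ i = 2 := by revert i; decide
    rcases h0 with rfl | rfl | rfl
    · exact ρ.proj _ _
    · rfl
    · exact ρ.proj _ _
  have comp2 : ∀ a b c, ρ.v (g.comp (fun i => if i = 2 then g else Pol.proj i)) (t3 a b c) =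
      ρ.v g (t3 a b (ρ.v g (t3 a b c))) := by
    intro a b c
    rw [ρ.comp]
    congr 1
    funext i
    have h0 : i = 0 ∨ i = 1 ∨ i = 2 := by revert i; decide
    rcases h0 with rfl | rfl | rfl
    · exact ρ.proj _ _
    · exact ρ.proj _ _
    · rfl
  cases h0 : ρ.v g (t3 true false false) <;> cases h1 : ρ.v g (t3 false true false) <;>
    cases h2 : ρ.v g (t3 false false true) <;> rw [h0] at h01 <;> rw [h1] at h02 <;>
    rw [h2] at h12
  · exact (hcyc g (h0.trans h1.symm) (h0.trans h2.symm)).elim
  · simp
  · simp
  · -- false at 0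
    exfalso
    apply hcyc (g.comp (fun i => if i = 0 then g else Pol.proj i))
    · rw [comp0, comp0, h0, h1, t3_self, h12]; rfl
    · rw [comp0, comp0, h0, h2, t3_self, h02]; rfl
  · simp
  · -- false at 1
    exfalso
    apply hcyc (g.comp (fun i => if i = 1 then g else Pol.proj i))
    · rw [comp1, comp1, h0, h1, t3_self, h12]; rfl
    · rw [comp1, comp1, h0, h2, h12, h01]
  · -- false at 2
    exfalso
    apply hcyc (g.comp (fun i => if i = 2 then g else Pol.proj i))
    · rw [comp2, comp2, h0, h1, h02, h01]
    · rw [comp2, comp2, h0, h2, h02, t3_self]; rfl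
  · exact (hcyc g (h0.trans h1.symm) (h0.trans h2.symm)).elim

/-- A non-trivial clone without commutative binary operation has a ternary cyclic operation. -/
theorem exists_cyc3 (ρ : Rep E) (hn : ¬∃ g : Pol E (ZMod 2), Cyc ρ g) {ι : Type} [Finite ι]
    (f : Pol E ι) (hf : ∀ i, ∃ A : ι → Bool, ρ.v f A ≠ A i) : ∃ g : Pol E (ZMod 3), Cyc ρ g := by
  classical
  by_contra hn3
  -- additivity
  have hadd : ∀ S T : Set ι, Disjoint S T →
      ((ρ.v f (ind (S ∪ T)) = true) ↔ (ρ.v f (ind S) = true ∨ ρ.v f (ind T) = true)) ∧
      ¬(ρ.v f (ind S) = true ∧ ρ.v f (ind T) = true) := by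
    intro S T hST
    let σ : ι → ZMod 3 := fun i => if i ∈ S then 0 else if i ∈ T then 1 else 2
    have e0 : (fun i => (t3 true false false : ZMod 3 → Bool) (σ i)) = ind S := by
      funext i
      by_cases h1 : i ∈ S
      · simp [σ, h1, t3, ind]
      · by_cases h2 : i ∈ T
        · simp [σ, h1, h2, t3, ind]
        · have h3 : (2 : ZMod 3) ≠ 0 := by decide
          have h4 : (2 : ZMod 3) ≠ 1 := by decide
          simp [σ, h1, h2, t3, ind, h3, h4]
    have e1 : (fun i => (t3 false true false : ZMod 3 → Bool) (σ i)) = ind T := by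
      funext i
      by_cases h1 : i ∈ S
      · have h2 : i ∉ T := fun h => Set.disjoint_left.1 hST h1 h
        simp [σ, h1, h2, t3, ind]
      · by_cases h2 : i ∈ T
        · simp [σ, h1, h2, t3, ind]
        · have h3 : (2 : ZMod 3) ≠ 0 := by decide
          have h4 : (2 : ZMod 3) ≠ 1 := by decide
          simp [σ, h1, h2, t3, ind, h3, h4]
    have e2 : (fun i => (t3 false false true : ZMod 3 → Bool) (σ i)) = ind (S ∪ T)ᶜ := by
      funext i
      by_cases h1 : i ∈ S
      · simp [σ, h1, t3, ind]
      · by_cases h2 : i ∈ T
        · simp [σ, h1, h2, t3, ind]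
        · have h3 : (2 : ZMod 3) ≠ 0 := by decide
          have h4 : (2 : ZMod 3) ≠ 1 := by decide
          simp [σ, h1, h2, t3, ind, h3, h4]
    have key := one_of_three ρ hn hn3 (f.minor σ)
    rw [ρ.minor, ρ.minor, ρ.minor, e0, e1, e2] at key
    have hc : ρ.v f (ind (S ∪ T)ᶜ) = !ρ.v f (ind (S ∪ T)) := by
      rw [← ind_compl]
      exact selfdual ρ hn f _
    rw [hc] at key
    cases h1 : ρ.v f (ind S) <;> cases h2 : ρ.v f (ind T) <;>
      cases h3 : ρ.v f (ind (S ∪ T)) <;> simp_all
  have hempty : ρ.v f (ind ∅) = false := by
    have : (ind (∅ : Set ι)) = fun _ => false := by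
      funext i; simp [ind]
    rw [this, ρ.const]
  have huniv : ρ.v f (ind Set.univ) = true := by
    have : (ind (Set.univ : Set ι)) = fun _ => true := by
      funext i; simp [ind]
    rw [this, ρ.const]
  have hfin : ∀ F : Finset ι, ρ.v f (ind (F : Set ι)) = true →
      ∃ i ∈ F, ρ.v f (ind {i}) = true := by
    intro F
    induction F using Finset.induction_on with
    | empty =>
      intro h
      rw [Finset.coe_empty, hempty] at h
      exact absurd h (by simp)
    | insert i F hi ih =>
      intro h
      rw [Finset.coe_insert, Set.insert_eq] at h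
      rcases (hadd {i} F (by simpa using hi)).1.1 h with h | h
      · exact ⟨i, Finset.mem_insert_self _ _, h⟩
      · obtain ⟨j, hj, h⟩ := ih h
        exact ⟨j, Finset.mem_insert_of_mem hj, h⟩
  have := Fintype.ofFinite ι
  obtain ⟨i0, -, hi0⟩ := hfin Finset.univ (by rw [Finset.coe_univ]; exact huniv)
  obtain ⟨A, hA⟩ := hf i0
  apply hA
  rw [eq_ind A]
  set S : Set ι := {i | A i = true} with hS
  by_cases hi : i0 ∈ S
  · rw [(ind_apply S i0).2 hi]
    have hd : Disjoint ({i0} : Set ι) (S \ {i0}) := Set.disjoint_sdiff_right
    have hu : {i0} ∪ S \ {i0} = S := by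
      rw [Set.union_sdiff_cancel]
      simpa using hi
    have := (hadd {i0} (S \ {i0}) hd).1
    rw [hu] at this
    exact this.2 (Or.inl hi0)
  · have h1 : ind S i0 = false := by
      rw [← Bool.not_eq_true, ind_apply]
      exact hi
    rw [h1]
    by_contra hne
    rw [Bool.not_eq_false] at hne
    exact (hadd S {i0} (by simpa using hi)).2 ⟨hne, hi0⟩

/-- the tuple with values in `{a, b}` given by a Boolean tuple -/
def tup {α : Type*} {ι : Type} (a b : α) (A : ι → Bool) : ι → α := fun i => cond (A i) b a

theorem tup_const {α : Type*} {ι : Type} (a b : α) (c : Bool) :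
    tup a b (fun _ : ι => c) = fun _ => cond c b a := rfl

/-- `{a, b}` is closed under the binary idempotent polymorphisms, first side. -/
def ClX (E : X → Y → Prop) (a b : X) : Prop :=
  ∀ g : Pol E (ZMod 2), g.fx (m2 a b) = a ∨ g.fx (m2 a b) = b

/-- `{a, b}` is closed under the binary idempotent polymorphisms, second side. -/
def ClY (E : X → Y → Prop) (a b : Y) : Prop :=
  ∀ g : Pol E (ZMod 2), g.fy (m2 a b) = a ∨ g.fy (m2 a b) = b

theorem ClX.tup {a b : X} (hc : ClX E a b) {ι : Type} (f : Pol E ι) (A : ι → Bool) :
    f.fx (tup a b A) = a ∨ f.fx (ZT.tup a b A) = b := by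
  have h := hc (f.minor (fun i => cond (A i) 1 0))
  have e : (f.minor (fun i => cond (A i) (1 : ZMod 2) 0)).fx (m2 a b) = f.fx (ZT.tup a b A) := by
    show f.fx (fun i => m2 a b (cond (A i) (1 : ZMod 2) 0)) = _
    congr 1
    funext i
    unfold m2 ZT.tup
    cases A i <;> simp
  rw [e] at h
  exact h

theorem ClY.tup {a b : Y} (hc : ClY E a b) {ι : Type} (f : Pol E ι) (A : ι → Bool) :
    f.fy (tup a b A) = a ∨ f.fy (ZT.tup a b A) = b := by
  have h := hc (f.minor (fun i => cond (A i) 1 0))
  have e : (f.minor (fun i => cond (A i) (1 : ZMod 2) 0)).fy (m2 a b) = f.fy (ZT.tup a b A) := by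
    show f.fy (fun i => m2 a b (cond (A i) (1 : ZMod 2) 0)) = _
    congr 1
    funext i
    unfold m2 ZT.tup
    cases A i <;> simp
  rw [e] at h
  exact h

open Classical in
/-- The representation on a pair of elements of `X`. -/
noncomputable def repX {a b : X} (hab : a ≠ b) (hc : ClX E a b) : Rep E where
  v f A := decide (f.fx (tup a b A) = b)
  proj i A := by
    show decide (tup a b A i = b) = A i
    unfold tup
    cases A i <;> simp [hab]
  comp f g A := by
    have : (fun i => (g i).fx (tup a b A)) =
        tup a b (fun i => decide ((g i).fx (tup a b A) = b)) := by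
      funext i
      show _ = cond (decide ((g i).fx (tup a b A) = b)) b a
      rcases hc.tup (g i) A with h | h
      · rw [h]
        simp [hab]
      · rw [h]
        simp
    show decide (f.fx (fun i => (g i).fx (tup a b A)) = b) = _
    rw [this]
  const f c := by
    simp only [tup_const, f.idx]
    cases c <;> simp [hab]

open Classical in
/-- The representation on a pair of elements of `Y`. -/
noncomputable def repY {a b : Y} (hab : a ≠ b) (hc : ClY E a b) : Rep E where
  v f A := decide (f.fy (tup a b A) = b)
  proj i A := by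
    show decide (tup a b A i = b) = A i
    unfold tup
    cases A i <;> simp [hab]
  comp f g A := by
    have : (fun i => (g i).fy (tup a b A)) =
        tup a b (fun i => decide ((g i).fy (tup a b A) = b)) := by
      funext i
      show _ = cond (decide ((g i).fy (tup a b A) = b)) b a
      rcases hc.tup (g i) A with h | h
      · rw [h]
        simp [hab]
      · rw [h]
        simp
    show decide (f.fy (fun i => (g i).fy (tup a b A)) = b) = _
    rw [this]
  const f c := by
    simp only [tup_const, f.idy]
    cases c <;> simp [hab]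

theorem repX_val {a b : X} (hab : a ≠ b) (hc : ClX E a b) {ι : Type} (f : Pol E ι)
    (A : ι → Bool) : f.fx (tup a b A) = cond ((repX hab hc).v f A) b a := by
  classical
  show _ = cond (decide (f.fx (tup a b A) = b)) b a
  rcases hc.tup f A with h | h
  · rw [h]; simp [hab]
  · rw [h]; simp

theorem repY_val {a b : Y} (hab : a ≠ b) (hc : ClY E a b) {ι : Type} (f : Pol E ι)
    (A : ι → Bool) : f.fy (tup a b A) = cond ((repY hab hc).v f A) b a := by
  classical
  show _ = cond (decide (f.fy (tup a b A) = b)) b a
  rcases hc.tup f A with h | h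
  · rw [h]; simp [hab]
  · rw [h]; simp

/-- Boolean classification: for given polymorphisms `b`, `h` the clone on two elements is
semilattice, affine or majority. -/
theorem classify (ρ : Rep E) (b : Pol E (ZMod 2)) (h : Pol E (ZMod 3))
    (hb : (ρ.v b (m2 false true) = ρ.v b (m2 true false)) ∨
      ((∀ c d, ρ.v b (m2 c d) = c) ∧ ¬∃ g : Pol E (ZMod 2), Cyc ρ g))
    (hh : (¬∃ g : Pol E (ZMod 2), Cyc ρ g) → Cyc ρ h) :
    (ρ.v b (m2 false true) = true ∧ ρ.v b (m2 true false) = true) ∨
    (ρ.v b (m2 false true) = false ∧ ρ.v b (m2 true false) = false) ∨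
    (ρ.v b (m2 true false) = true ∧ ∀ c d e, ρ.v h (t3 c d e) = xor c (xor d e)) ∨
    (ρ.v b (m2 true false) = true ∧ ρ.v h (t3 true false false) = false ∧
      ρ.v h (t3 false true false) = false ∧ ρ.v h (t3 false false true) = false ∧
      ρ.v h (t3 false true true) = true ∧ ρ.v h (t3 true false true) = true ∧
      ρ.v h (t3 true true false) = true) := by
  rcases hb with hb | ⟨hb, hn⟩
  · cases h1 : ρ.v b (m2 true false)
    · right; left
      rw [h1] at hb
      exact ⟨hb, rfl⟩
    · left
      rw [h1] at hb
      exact ⟨hb, rfl⟩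
  · right; right
    have hc := hh hn
    have hneg : ∀ (a b c : Bool), ρ.v h (t3 (!a) (!b) (!c)) = !ρ.v h (t3 a b c) := by
      intro a b c
      rw [← selfdual ρ hn h]
      congr 1
      funext i
      unfold t3
      split_ifs <;> rfl
    have e1 : ρ.v h (t3 false false true) = ρ.v h (t3 true false false) := by
      rw [← hc 1 (t3 true false false)]
      congr 1
      funext j
      unfold t3
      fin_cases j <;> rfl
    have e2 : ρ.v h (t3 false true false) = ρ.v h (t3 true false false) := by
      rw [← hc 2 (t3 true false false)]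
      congr 1
      funext j
      unfold t3
      fin_cases j <;> rfl
    have n1 := hneg true false false
    have n2 := hneg false true false
    have n3 := hneg false false true
    simp only [Bool.not_true, Bool.not_false] at n1 n2 n3
    have b1 := hb true false
    cases h1 : ρ.v h (t3 true false false)
    · right
      rw [h1] at e1 e2 n1
      rw [e2] at n2
      rw [e1] at n3
      exact ⟨b1, rfl, e2, e1, n1, n2, n3⟩
    · left
      rw [h1] at e1 e2 n1
      rw [e2] at n2
      rw [e1] at n3
      refine ⟨b1, ?_⟩
      intro c d e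
      rcases c <;> rcases d <;> rcases e
      · exact t3_self ρ h false
      · exact e1
      · exact e2
      · exact n1
      · exact h1
      · exact n2
      · exact n3
      · exact t3_self ρ h true

theorem tup_m2 {α : Type*} (a b : α) (c d : Bool) :
    tup a b (m2 c d : ZMod 2 → Bool) = m2 (cond c b a) (cond d b a) := by
  funext i
  unfold tup m2
  split_ifs <;> rfl

theorem tup_t3 {α : Type*} (a b : α) (c d e : Bool) :
    tup a b (t3 c d e : ZMod 3 → Bool) = t3 (cond c b a) (cond d b a) (cond e b a) := by
  funext i
  unfold tup t3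
  split_ifs <;> rfl

end Pool.Agent.V5helper9.ZT
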